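import Mathlib

section
/-!
A continuous real 2-cocycle of a polynomial triangular group law on `ℝ^d`, normalised to vanish on
pairs `(x, y)` with `supp x ≤ i ≤ supp y`, is a polynomial.
-/
set_option autoImplicit false
open scoped BigOperators

namespace MPd26.PolyLaw

/-- polynomial functions -/
def IsPoly {ι : Type} (f : (ι → ℝ) → ℝ) : Prop :=
  ∃ p : MvPolynomial ι ℝ, ∀ x, f x = MvPolynomial.eval x p

section basics

variable {ι κ : Type}

lemma IsPoly.const (c : ℝ) : IsPoly (fun _ : ι → ℝ => c) := ⟨MvPolynomial.C c, by simp⟩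

lemma IsPoly.coord (i : ι) : IsPoly (fun x : ι → ℝ => x i) := ⟨MvPolynomial.X i, by simp⟩

lemma IsPoly.add {f g : (ι → ℝ) → ℝ} (hf : IsPoly f) (hg : IsPoly g) :
    IsPoly (fun x => f x + g x) := by
  obtain ⟨p, hp⟩ := hf
  obtain ⟨q, hq⟩ := hg
  exact ⟨p + q, by simp [hp, hq]⟩

lemma IsPoly.sub {f g : (ι → ℝ) → ℝ} (hf : IsPoly f) (hg : IsPoly g) :
    IsPoly (fun x => f x - g x) := by
  obtain ⟨p, hp⟩ := hf
  obtain ⟨q, hq⟩ := hg
  exact ⟨p - q, by simp [hp, hq]⟩

lemma IsPoly.mul {f g : (ι → ℝ) → ℝ} (hf : IsPoly f) (hg : IsPoly g) :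
    IsPoly (fun x => f x * g x) := by
  obtain ⟨p, hp⟩ := hf
  obtain ⟨q, hq⟩ := hg
  exact ⟨p * q, by simp [hp, hq]⟩

lemma IsPoly.neg {f : (ι → ℝ) → ℝ} (hf : IsPoly f) : IsPoly (fun x => - f x) := by
  obtain ⟨p, hp⟩ := hf
  exact ⟨-p, by simp [hp]⟩

lemma IsPoly.pow {f : (ι → ℝ) → ℝ} (hf : IsPoly f) (n : ℕ) : IsPoly (fun x => f x ^ n) := by
  obtain ⟨p, hp⟩ := hf
  exact ⟨p ^ n, by simp [hp]⟩

lemma IsPoly.sum {σ : Type*} (S : Finset σ) {f : σ → (ι → ℝ) → ℝ} (hf : ∀ i ∈ S, IsPoly (f i)) :
    IsPoly (fun x => ∑ i ∈ S, f i x) := by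
  classical
  induction S using Finset.induction_on with
  | empty => simpa using IsPoly.const (ι := ι) 0
  | insert a S ha ih =>
    simp only [Finset.sum_insert ha]
    exact (hf a (Finset.mem_insert_self _ _)).add
      (ih (fun i hi => hf i (Finset.mem_insert_of_mem hi)))

lemma IsPoly.comp {f : (κ → ℝ) → ℝ} (hf : IsPoly f) {g : (ι → ℝ) → κ → ℝ}
    (hg : ∀ k, IsPoly (fun x => g x k)) : IsPoly (fun x => f (g x)) := by
  obtain ⟨p, hp⟩ := hf
  choose G hG using hg
  refine ⟨MvPolynomial.bind₁ G p, fun x => ?_⟩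
  show f (g x) = _
  rw [hp]
  have h1 : g x = fun k => MvPolynomial.eval x (G k) := by funext k; exact hG k x
  rw [h1]
  exact (MvPolynomial.eval₂Hom_bind₁ (RingHom.id ℝ) x G p).symm

lemma IsPoly.congr {f g : (ι → ℝ) → ℝ} (hf : IsPoly f) (h : ∀ x, g x = f x) : IsPoly g := by
  have : g = f := funext h
  rw [this]; exact hf

end basics

/-! ### one and two variables -/

/-- antidifference of a power -/
lemma antidiff1 (a : ℕ) : ∃ F : Polynomial ℝ, F.eval 0 = 0 ∧
    ∀ s : ℝ, F.eval (s + 1) - F.eval s = s ^ a := by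
  induction a using Nat.strong_induction_on with
  | _ a ih =>
    choose! F hF0 hF using ih
    refine ⟨Polynomial.C ((a : ℝ) + 1)⁻¹ * (Polynomial.X ^ (a + 1)
      - ∑ j ∈ Finset.range a, Polynomial.C (((a + 1).choose j : ℕ) : ℝ) * F j), ?_, ?_⟩
    · simp only [Polynomial.eval_mul, Polynomial.eval_C, Polynomial.eval_sub, Polynomial.eval_pow,
        Polynomial.eval_X, Polynomial.eval_finsetSum]
      rw [Finset.sum_eq_zero]
      · simp
      · intro j hj
        rw [hF0 j (Finset.mem_range.mp hj), mul_zero]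
    · intro s
      simp only [Polynomial.eval_mul, Polynomial.eval_C, Polynomial.eval_sub, Polynomial.eval_pow,
        Polynomial.eval_X, Polynomial.eval_finsetSum]
      have hne : ((a : ℝ) + 1) ≠ 0 := by positivity
      have h1 : (s + 1) ^ (a + 1) = s ^ (a + 1) + ((a : ℝ) + 1) * s ^ a
          + ∑ j ∈ Finset.range a, (((a + 1).choose j : ℕ) : ℝ) * s ^ j := by
        rw [add_pow, Finset.sum_range_succ, Finset.sum_range_succ]
        simp only [one_pow, mul_one, Nat.choose_self, Nat.cast_one, Nat.choose_succ_self_right]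
        push_cast
        have : ∑ x ∈ Finset.range a, s ^ x * (((a + 1).choose x : ℕ) : ℝ)
            = ∑ j ∈ Finset.range a, (((a + 1).choose j : ℕ) : ℝ) * s ^ j :=
          Finset.sum_congr rfl (fun j _ => mul_comm _ _)
        rw [this]
        ring
      have h2 : ∑ j ∈ Finset.range a, (((a + 1).choose j : ℕ) : ℝ) * (F j).eval (s + 1)
          - ∑ j ∈ Finset.range a, (((a + 1).choose j : ℕ) : ℝ) * (F j).eval s
          = ∑ j ∈ Finset.range a, (((a + 1).choose j : ℕ) : ℝ) * s ^ j := by
        rw [← Finset.sum_sub_distrib]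
        refine Finset.sum_congr rfl (fun j hj => ?_)
        rw [← mul_sub, hF j (Finset.mem_range.mp hj) s]
      have h3 : ((a : ℝ) + 1)⁻¹ * ((s + 1) ^ (a + 1)
            - ∑ j ∈ Finset.range a, (((a + 1).choose j : ℕ) : ℝ) * (F j).eval (s + 1))
          - ((a : ℝ) + 1)⁻¹ * (s ^ (a + 1)
            - ∑ j ∈ Finset.range a, (((a + 1).choose j : ℕ) : ℝ) * (F j).eval s)
          = ((a : ℝ) + 1)⁻¹ * (((a : ℝ) + 1) * s ^ a) := by
        rw [h1, ← h2]; ring
      rw [h3]
      field_simp

/-- polynomial functions of two real variables -/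
def IsPoly2 (f : ℝ → ℝ → ℝ) : Prop := IsPoly (fun x : Fin 2 → ℝ => f (x 0) (x 1))

lemma isPoly_eval (F : Polynomial ℝ) {ι : Type} {g : (ι → ℝ) → ℝ} (hg : IsPoly g) :
    IsPoly (fun x => F.eval (g x)) := by
  have : (fun x => F.eval (g x)) = fun x => ∑ i ∈ F.support, F.coeff i * g x ^ i := by
    funext x
    rw [Polynomial.eval_eq_sum, Polynomial.sum]
  rw [this]
  exact IsPoly.sum _ (fun i _ => (IsPoly.const _).mul (hg.pow i))

lemma antidiff2 {f : ℝ → ℝ → ℝ} (hf : IsPoly2 f) :
    ∃ S : ℝ → ℝ → ℝ, IsPoly2 S ∧ (∀ t, S 0 t = 0) ∧ ∀ s t, S (s + 1) t - S s t = f s t := by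
  obtain ⟨p, hp⟩ := hf
  choose F hF0 hF using antidiff1
  refine ⟨fun s t => ∑ u ∈ p.support, MvPolynomial.coeff u p * ((F (u 0)).eval s * t ^ (u 1)),
    ?_, ?_, ?_⟩
  · refine IsPoly.sum _ (fun u _ => (IsPoly.const _).mul ((isPoly_eval _ (IsPoly.coord 0)).mul
      ((IsPoly.coord 1).pow _)))
  · intro t
    refine Finset.sum_eq_zero (fun u _ => ?_)
    rw [hF0]; ring
  · intro s t
    rw [← Finset.sum_sub_distrib]
    have h1 := hp ![s, t]
    simp only [Matrix.cons_val_zero, Matrix.cons_val_one] at h1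
    rw [h1, MvPolynomial.eval_eq']
    refine Finset.sum_congr rfl (fun u _ => ?_)
    rw [Fin.prod_univ_two]
    simp only [Matrix.cons_val_zero, Matrix.cons_val_one]
    rw [← hF (u 0) s]
    ring

lemma vanish {f : ℝ → ℝ} (hf : IsPoly (fun x : Fin 1 → ℝ => f (x 0))) (h : ∀ k : ℕ, f k = 0) :
    ∀ s, f s = 0 := by
  obtain ⟨p, hp⟩ := hf
  let P : Polynomial ℝ := MvPolynomial.aeval (fun _ : Fin 1 => (Polynomial.X : Polynomial ℝ)) p
  have hP : ∀ s, f s = P.eval s := by
    intro s
    have h1 := hp (fun _ => s)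
    simp only at h1
    rw [h1]
    have h2 : P.eval s = Polynomial.evalRingHom s (MvPolynomial.aeval (fun _ : Fin 1 =>
      (Polynomial.X : Polynomial ℝ)) p) := rfl
    rw [h2, MvPolynomial.map_aeval]
    simp only [Polynomial.coe_evalRingHom, Polynomial.eval_X]
    rw [MvPolynomial.coe_eval₂Hom]
    have h3 : (Polynomial.evalRingHom s).comp (algebraMap ℝ (Polynomial ℝ)) = RingHom.id ℝ := by
      ext; simp
    rw [h3]
    rfl
  have hz : P = 0 := by
    refine Polynomial.eq_zero_of_infinite_isRoot P ?_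
    refine Set.infinite_of_injective_forall_mem (f := fun k : ℕ => (k : ℝ)) Nat.cast_injective ?_
    intro k
    show P.eval (k : ℝ) = 0
    rw [← hP, h k]
  intro s
  rw [hP, hz, Polynomial.eval_zero]

lemma quasi (q : ℝ → ℝ → ℝ) (hcont : ∀ t, Continuous (fun s => q s t)) (h0 : ∀ t, q 0 t = 0)
    (H : IsPoly (fun x : Fin 3 → ℝ => q (x 0 + x 1) (x 2) - q (x 0) (x 2) - q (x 1) (x 2))) :
    ∃ S : ℝ → ℝ → ℝ, IsPoly2 S ∧ ∀ s t, q s t = s * q 1 t + S s t := by
  have hf : IsPoly2 (fun s t => q (s + 1) t - q s t - q 1 t) := by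
    have := H.comp (ι := Fin 2) (g := fun x => ![x 0, 1, x 1]) (by
      intro k
      fin_cases k
      · exact IsPoly.coord 0
      · exact IsPoly.const 1
      · exact IsPoly.coord 1)
    exact this
  obtain ⟨S, hS, hS0, hSd⟩ := antidiff2 hf
  refine ⟨S, hS, ?_⟩
  intro s t
  -- fixed parameter `t`
  set g : ℝ → ℝ := fun s => q s t - s * q 1 t - S s t with hg
  have hper : ∀ s, g (s + 1) = g s := by
    intro s
    have := hSd s t
    simp only [hg]
    linarith
  have hg0 : g 0 = 0 := by simp [hg, h0, hS0]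
  have hgk : ∀ (k : ℕ) s, g (k + s) = g s := by
    intro k
    induction k with
    | zero => intro s; simp
    | succ k ih =>
      intro s
      have : ((k + 1 : ℕ) : ℝ) + s = (k + s) + 1 := by push_cast; ring
      rw [this, hper, ih]
  -- the defect is polynomial in the first variable
  have hρ : ∀ s', IsPoly (fun x : Fin 1 → ℝ => g (x 0 + s') - g (x 0) - g s') := by
    intro s'
    have h1 : IsPoly (fun x : Fin 1 → ℝ => q (x 0 + s') t - q (x 0) t - q s' t) := by
      have := H.comp (ι := Fin 1) (g := fun x => ![x 0, s', t]) (by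
        intro k
        fin_cases k
        · exact IsPoly.coord 0
        · exact IsPoly.const s'
        · exact IsPoly.const t)
      exact this
    have h2 : IsPoly (fun x : Fin 1 → ℝ => S (x 0 + s') t - S (x 0) t - S s' t) := by
      have h3 := hS.comp (ι := Fin 1) (g := fun x => ![x 0 + s', t]) (by
        intro k
        fin_cases k
        · exact (IsPoly.coord 0).add (IsPoly.const s')
        · exact IsPoly.const t)
      have h4 := hS.comp (ι := Fin 1) (g := fun x => ![x 0, t]) (by
        intro k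
        fin_cases k
        · exact (IsPoly.coord 0)
        · exact IsPoly.const t)
      exact (h3.sub h4).sub (IsPoly.const (S s' t))
    refine (h1.sub h2).congr (fun x => ?_)
    simp only [hg]
    ring
  have hadd : ∀ s s', g (s + s') = g s + g s' := by
    intro s s'
    have := vanish (f := fun z => g (z + s') - g z - g s') (hρ s') (fun k => by
      show g (k + s') - g k - g s' = 0
      have h1 := hgk k s'
      have h2 := hgk k 0
      rw [add_zero] at h2
      rw [h1, h2, hg0]; ring) s
    have h3 : g (s + s') - g s - g s' = 0 := this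
    linarith
  have hScont : Continuous (fun s => S s t) := by
    obtain ⟨p, hp⟩ := hS
    have e : (fun s => S s t) = fun s => MvPolynomial.eval ![s, t] p := by
      funext s
      have := hp ![s, t]
      simpa using this
    rw [e]
    refine (MvPolynomial.continuous_eval p).comp ?_
    refine continuous_pi (fun i => ?_)
    fin_cases i
    · exact continuous_id
    · exact continuous_const
  have hgcont : Continuous g := by
    have := hcont t
    simp only [hg]
    fun_prop
  have hg1 : g 1 = 0 := by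
    have := hper 0
    rw [zero_add, hg0] at this
    exact this
  have hlin : g s = 0 := by
    let G : ℝ →+ ℝ := ⟨⟨g, hg0⟩, hadd⟩
    have := map_real_smul G hgcont s 1
    have h2 : g s = s * g 1 := by simpa [G] using this
    rw [h2, hg1, mul_zero]
  simp only [hg] at hlin
  linarith

lemma quasi2 (q : ℝ → ℝ → ℝ) (hc1 : ∀ t, Continuous (fun s => q s t))
    (hc2 : ∀ s, Continuous (fun t => q s t)) (h0 : ∀ t, q 0 t = 0) (h0' : ∀ s, q s 0 = 0)
    (H1 : IsPoly (fun x : Fin 3 → ℝ => q (x 0 + x 1) (x 2) - q (x 0) (x 2) - q (x 1) (x 2)))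
    (H2 : IsPoly (fun x : Fin 3 → ℝ => q (x 0) (x 1 + x 2) - q (x 0) (x 1) - q (x 0) (x 2))) :
    IsPoly2 q := by
  obtain ⟨S, hS, hq⟩ := quasi q hc1 h0 H1
  have h1 := quasi (fun t _ => q 1 t) (fun _ => hc2 1) (fun _ => h0' 1) (by
    have := H2.comp (ι := Fin 3) (g := fun x => ![1, x 0, x 1]) (by
      intro k
      fin_cases k
      · exact IsPoly.const 1
      · exact IsPoly.coord 0
      · exact IsPoly.coord 1)
    exact this)
  obtain ⟨S', hS', hq'⟩ := h1
  have hS'' : IsPoly (fun x : Fin 2 → ℝ => S' (x 1) 0) := by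
    have := hS'.comp (ι := Fin 2) (g := fun x => ![x 1, 0]) (by
      intro k
      fin_cases k
      · exact IsPoly.coord 1
      · exact IsPoly.const 0)
    exact this
  have hS2 : IsPoly (fun x : Fin 2 → ℝ => S (x 0) (x 1)) := hS
  refine ((((IsPoly.coord 0).mul (((IsPoly.coord 1).mul (IsPoly.const (q 1 1))).add
    hS''))).add hS2).congr (fun x => ?_)
  rw [hq (x 0) (x 1), hq' (x 1) 0]

/-! ### group laws -/

section law

variable {d : ℕ} (mul : (Fin d → ℝ) → (Fin d → ℝ) → (Fin d → ℝ))

/-- polynomial maps into `ℝ^d` -/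
def PM {ι : Type} (X : (ι → ℝ) → Fin d → ℝ) : Prop := ∀ k, IsPoly (fun p => X p k)

/-- polynomial dependence of `c` on polynomial arguments, second argument in `G_(m)` -/
def CP (c : (Fin d → ℝ) → (Fin d → ℝ) → ℝ) (m : ℕ) : Prop :=
  ∀ (ι : Type) (X Y : (ι → ℝ) → Fin d → ℝ), PM X → PM Y → (∀ p (j : Fin d), (j : ℕ) < m → Y p j = 0) →
    IsPoly (fun p => c (X p) (Y p))

/-- polynomial dependence of `c x (t e_l)` -/
def DP (c : (Fin d → ℝ) → (Fin d → ℝ) → ℝ) (l : Fin d) : Prop :=
  ∀ (ι : Type) (X : (ι → ℝ) → Fin d → ℝ) (T : (ι → ℝ) → ℝ), PM X → IsPoly T →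
    IsPoly (fun p => c (X p) (Pi.single l (T p)))

end law

/-- lower part -/
def lo {d : ℕ} (m : ℕ) (x : Fin d → ℝ) : Fin d → ℝ := fun j => if (j : ℕ) < m then x j else 0

/-- upper part -/
def hi {d : ℕ} (m : ℕ) (x : Fin d → ℝ) : Fin d → ℝ := fun j => if (j : ℕ) < m then 0 else x j

lemma lo_add_hi {d : ℕ} (m : ℕ) (x : Fin d → ℝ) : lo m x + hi m x = x := by
  funext j
  simp only [lo, hi, Pi.add_apply]
  split_ifs <;> simp

theorem polyLaw (d : ℕ) (mul : (Fin d → ℝ) → (Fin d → ℝ) → (Fin d → ℝ))
    (P : Fin d → MvPolynomial (Fin d ⊕ Fin d) ℝ)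
    (hP : ∀ x y j, mul x y j = x j + y j + MvPolynomial.eval (Sum.elim x y) (P j))
    (hvarsl : ∀ j i, Sum.inl i ∈ (P j).vars → i < j)
    (hvarsr : ∀ j i, Sum.inr i ∈ (P j).vars → i < j)
    (hassoc : ∀ x y z, mul (mul x y) z = mul x (mul y z))
    (hsplit : ∀ x y (i : Fin d), (∀ j, i < j → x j = 0) → (∀ j, j < i → y j = 0) →
      mul x y = x + y)
    (c : (Fin d → ℝ) → (Fin d → ℝ) → ℝ)
    (hcont : Continuous (fun z : (Fin d → ℝ) × (Fin d → ℝ) => c z.1 z.2))
    (hcoc : ∀ x y z, c x y + c (mul x y) z = c y z + c x (mul y z))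
    (hcsplit : ∀ x y (i : Fin d), (∀ j, i < j → x j = 0) → (∀ j, j < i → y j = 0) → c x y = 0) :
    ∃ Q : MvPolynomial (Fin d ⊕ Fin d) ℝ, ∀ x y, c x y = MvPolynomial.eval (Sum.elim x y) Q := by
  classical
  rcases Nat.eq_zero_or_pos d with hd | hd
  · subst hd
    refine ⟨MvPolynomial.C (c 0 0), fun x y => ?_⟩
    rw [MvPolynomial.eval_C, Subsingleton.elim x 0, Subsingleton.elim y 0]
  -- natural number versions of the splitting hypotheses
  have hsplitN : ∀ x y (m : ℕ), (∀ j : Fin d, m < j → x j = 0) → (∀ j : Fin d, (j : ℕ) < m → y j = 0) →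
      mul x y = x + y := by
    intro x y m hx hy
    by_cases hm : m < d
    · exact hsplit x y ⟨m, hm⟩ (fun j hj => hx j hj) (fun j hj => hy j hj)
    · have hy0 : y = 0 := by
        funext j
        exact hy j (by have := j.2; omega)
      subst hy0
      refine hsplit x 0 ⟨d - 1, by omega⟩ (fun j hj => ?_) (fun j _ => rfl)
      have h1 : d - 1 < (j : ℕ) := hj
      have := j.2
      omega
  have hcsplitN : ∀ x y (m : ℕ), (∀ j : Fin d, m < j → x j = 0) →
      (∀ j : Fin d, (j : ℕ) < m → y j = 0) → c x y = 0 := by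
    intro x y m hx hy
    by_cases hm : m < d
    · exact hcsplit x y ⟨m, hm⟩ (fun j hj => hx j hj) (fun j hj => hy j hj)
    · have hy0 : y = 0 := by
        funext j
        exact hy j (by have := j.2; omega)
      subst hy0
      refine hcsplit x 0 ⟨d - 1, by omega⟩ (fun j hj => ?_) (fun j _ => rfl)
      have h1 : d - 1 < (j : ℕ) := hj
      have := j.2
      omega
  have hx0 : ∀ x, mul x 0 = x := by
    intro x
    have := hsplitN x 0 d (fun j hj => by have := j.2; omega) (fun j _ => rfl)
    simpa using this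
  have h0x : ∀ x, mul 0 x = x := by
    intro x
    have := hsplitN 0 x 0 (fun j _ => rfl) (fun j hj => by omega)
    simpa using this
  have hcx0 : ∀ x, c x 0 = 0 := fun x =>
    hcsplitN x 0 d (fun j hj => by have := j.2; omega) (fun j _ => rfl)
  have hc0x : ∀ x, c 0 x = 0 := fun x =>
    hcsplitN 0 x 0 (fun j _ => rfl) (fun j hj => by omega)
  -- coordinates depend only on lower coordinates
  have hcongr : ∀ (x x' y y' : Fin d → ℝ) (j : Fin d),
      (∀ i, i < j → x i = x' i) → (∀ i, i < j → y i = y' i) →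
      MvPolynomial.eval (Sum.elim x y) (P j) = MvPolynomial.eval (Sum.elim x' y') (P j) := by
    intro x x' y y' j hx hy
    refine MvPolynomial.hom_congr_vars (f₁ := MvPolynomial.eval (Sum.elim x y))
      (f₂ := MvPolynomial.eval (Sum.elim x' y')) ?_ ?_ rfl
    · ext r; simp
    · intro i hi _
      rcases i with i | i
      · simpa using hx i (hvarsl j i hi)
      · simpa using hy i (hvarsr j i hi)
  -- multiplication of an element of `G_(k)` on the right and on the left
  have hright : ∀ (x z : Fin d → ℝ) (k : ℕ), (∀ j : Fin d, (j : ℕ) < k → z j = 0) →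
      ∀ j : Fin d, (j : ℕ) ≤ k → mul x z j = x j + z j := by
    intro x z k hz j hj
    have h1 := congrFun (hx0 x) j
    rw [hP] at h1
    rw [hP]
    have h2 := hcongr x x z 0 j (fun _ _ => rfl) (fun i hi => by
      have : (i : ℕ) < (j : ℕ) := hi
      simpa using hz i (by omega))
    rw [h2]
    simp only [Pi.zero_apply] at h1
    linarith
  have hleft : ∀ (x z : Fin d → ℝ) (k : ℕ), (∀ j : Fin d, (j : ℕ) < k → z j = 0) →
      ∀ j : Fin d, (j : ℕ) ≤ k → mul z x j = z j + x j := by
    intro x z k hz j hj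
    have h1 := congrFun (h0x x) j
    rw [hP] at h1
    rw [hP]
    have h2 := hcongr z 0 x x j (fun i hi => by
      have : (i : ℕ) < (j : ℕ) := hi
      simpa using hz i (by omega)) (fun _ _ => rfl)
    rw [h2]
    simp only [Pi.zero_apply] at h1
    linarith
  have hsc : ∀ l : Fin d, Continuous (fun s : ℝ => (Pi.single l s : Fin d → ℝ)) := by
    intro l
    refine continuous_pi (fun j => ?_)
    by_cases hj : j = l
    · subst hj
      simp only [Pi.single_eq_same]
      exact continuous_id
    · have : (fun s : ℝ => (Pi.single l s : Fin d → ℝ) j) = fun _ => 0 := by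
        funext s; exact Pi.single_eq_of_ne hj _
      rw [this]; exact continuous_const
  -- one-parameter subgroups
  have hee : ∀ (l : Fin d) (a b : ℝ), mul (Pi.single l a) (Pi.single l b) = Pi.single l (a + b) := by
    intro l a b
    rw [hsplitN _ _ (l : ℕ), ← Pi.single_add]
    · intro j hj
      exact Pi.single_eq_of_ne (by rintro rfl; omega) _
    · intro j hj
      exact Pi.single_eq_of_ne (by rintro rfl; omega) _
  have hee0 : ∀ (l : Fin d) (a : ℝ), mul (Pi.single l (-a)) (Pi.single l a) = 0 := by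
    intro l a; rw [hee]; simp
  have hee0' : ∀ (l : Fin d) (a : ℝ), mul (Pi.single l a) (Pi.single l (-a)) = 0 := by
    intro l a; rw [hee]; simp
  -- conjugation
  let cj : Fin d → ℝ → (Fin d → ℝ) → (Fin d → ℝ) :=
    fun l t z => mul (mul (Pi.single l (-t)) z) (Pi.single l t)
  have hcj : ∀ l t z, mul z (Pi.single l t) = mul (Pi.single l t) (cj l t z) := by
    intro l t z
    show _ = mul (Pi.single l t) (mul (mul (Pi.single l (-t)) z) (Pi.single l t))
    rw [← hassoc, ← hassoc, hee0', h0x]
  have hcjmul : ∀ l t z z', cj l t (mul z z') = mul (cj l t z) (cj l t z') := by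
    intro l t z z'
    show mul (mul (Pi.single l (-t)) (mul z z')) (Pi.single l t)
      = mul (mul (mul (Pi.single l (-t)) z) (Pi.single l t))
        (mul (mul (Pi.single l (-t)) z') (Pi.single l t))
    have h1 : mul (mul (mul (Pi.single l (-t)) z) (Pi.single l t))
        (mul (mul (Pi.single l (-t)) z') (Pi.single l t))
        = mul (mul (Pi.single l (-t)) z) (mul (mul (mul (Pi.single l t) (Pi.single l (-t))) z')
          (Pi.single l t)) := by
      simp only [hassoc]
    rw [h1, hee0', h0x, hassoc, hassoc, hassoc]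
  have hcjz : ∀ (l : Fin d) t z (k : ℕ), (l : ℕ) < k → (∀ j : Fin d, (j : ℕ) < k → z j = 0) →
      ∀ j : Fin d, (j : ℕ) ≤ k → cj l t z j = z j := by
    intro l t z k hlk hz j hj
    show mul (mul (Pi.single l (-t)) z) (Pi.single l t) j = z j
    -- compare with z = 0
    have h0 : mul (mul (Pi.single l (-t)) 0) (Pi.single l t) j = 0 := by
      rw [hx0, hee0]; rfl
    rw [hP] at h0 ⊢
    have h1 := hcongr (mul (Pi.single l (-t)) z) (mul (Pi.single l (-t)) 0) (Pi.single l t)
      (Pi.single l t) j (fun i hi => by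
        have h2 : (i : ℕ) < (j : ℕ) := hi
        rw [hx0, hright _ z k hz i (by omega), hz i (by omega), add_zero]) (fun _ _ => rfl)
    rw [h1]
    have h3 := hright (Pi.single l (-t)) z k hz j hj
    rw [h3]
    rw [hx0] at h0
    rw [hx0]
    linarith
  have hcj0 : ∀ l t, cj l t 0 = 0 := by
    intro l t
    show mul (mul (Pi.single l (-t)) 0) (Pi.single l t) = 0
    rw [hx0, hee0]
  have hcjcj : ∀ l t t' z, cj l t' (cj l t z) = cj l (t + t') z := by
    intro l t t' z
    show mul (mul (Pi.single l (-t')) (mul (mul (Pi.single l (-t)) z) (Pi.single l t)))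
      (Pi.single l t') = mul (mul (Pi.single l (-(t + t'))) z) (Pi.single l (t + t'))
    rw [← hee l t t']
    have : (-(t + t')) = (-t') + (-t) := by ring
    rw [this, ← hee l (-t') (-t)]
    simp only [hassoc]
  -- the cocycle on products
  -- (a) c x (t e_l) depends only on the part above l
  have hsing_lt : ∀ (l : Fin d) (a : ℝ) (j : Fin d), (j : ℕ) < l → (Pi.single l a : Fin d → ℝ) j = 0 := by
    intro l a j hj
    exact Pi.single_eq_of_ne (by rintro rfl; omega) _
  have hsing_gt : ∀ (l : Fin d) (a : ℝ) (j : Fin d), (l : ℕ) < j → (Pi.single l a : Fin d → ℝ) j = 0 := by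
    intro l a j hj
    exact Pi.single_eq_of_ne (by rintro rfl; omega) _
  have hlohi : ∀ (m : ℕ) (x : Fin d → ℝ), mul (lo m x) (hi m x) = x := by
    intro m x
    rw [hsplitN _ _ m, lo_add_hi]
    · intro j hj
      simp only [lo]
      rw [if_neg (by omega)]
    · intro j hj
      simp only [hi]
      rw [if_pos hj]
  have hclohi : ∀ (m : ℕ) (x : Fin d → ℝ), c (lo m x) (hi m x) = 0 := by
    intro m x
    refine hcsplitN _ _ m ?_ ?_
    · intro j hj
      simp only [lo]
      rw [if_neg (by omega)]
    · intro j hj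
      simp only [hi]
      rw [if_pos hj]
  -- c (te_l) z for z above l vanishes
  have hca : ∀ (l : Fin d) (t : ℝ) (z : Fin d → ℝ), (∀ j : Fin d, (j : ℕ) < l → z j = 0) →
      c (Pi.single l t) z = 0 := by
    intro l t z hz
    exact hcsplitN _ _ (l : ℕ) (fun j hj => hsing_gt l t j hj) (fun j hj => hz j hj)
  have hkey1 : ∀ (l : Fin d) (t : ℝ) (x : Fin d → ℝ),
      c x (Pi.single l t) = c (hi ((l : ℕ) + 1) x) (Pi.single l t) := by
    intro l t x
    set m := (l : ℕ) + 1 with hm
    have hhi : ∀ j : Fin d, (j : ℕ) < m → hi m x j = 0 := fun j hj => by simp [hi, hj]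
    have h1 := hcoc (lo m x) (hi m x) (Pi.single l t)
    rw [hlohi, hclohi, zero_add] at h1
    rw [h1]
    -- the second term vanishes
    rw [hcj l t (hi m x)]
    have hcjh : ∀ j : Fin d, (j : ℕ) < m → cj l t (hi m x) j = 0 := fun j hj => by
      rw [hcjz l t (hi m x) m (by omega) hhi j (by omega), hhi j hj]
    have h2 := hcoc (lo m x) (Pi.single l t) (cj l t (hi m x))
    have h3 : c (lo m x) (Pi.single l t) = 0 := by
      refine hcsplitN _ _ (l : ℕ) ?_ (fun j hj => hsing_lt l t j hj)
      intro j hj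
      simp only [lo]
      rw [if_neg (by omega)]
    have h4 : c (Pi.single l t) (cj l t (hi m x)) = 0 := hca l t _ (fun j hj => hcjh j (by omega))
    have h5 : c (mul (lo m x) (Pi.single l t)) (cj l t (hi m x)) = 0 := by
      have e : mul (lo m x) (Pi.single l t) = lo m x + Pi.single l t := by
        refine hsplitN _ _ (l : ℕ) ?_ (fun j hj => hsing_lt l t j hj)
        intro j hj
        simp only [lo]
        rw [if_neg (by omega)]
      rw [e]
      refine hcsplitN _ _ (l : ℕ) ?_ (fun j hj => hcjh j (by omega))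
      intro j hj
      simp only [Pi.add_apply, lo]
      rw [if_neg (by omega), hsing_gt l t j hj, add_zero]
    rw [h3, h4, h5] at h2
    linarith
  -- (b) additivity in z up to c
  have hkey2 : ∀ (l : Fin d) (t : ℝ) (z z' : Fin d → ℝ),
      (∀ j : Fin d, (j : ℕ) < (l : ℕ) + 1 → z j = 0) →
      (∀ j : Fin d, (j : ℕ) < (l : ℕ) + 1 → z' j = 0) →
      c (mul z z') (Pi.single l t) = c z (Pi.single l t) + c z' (Pi.single l t)
        + c (cj l t z) (cj l t z') - c z z' := by
    intro l t z z' hz hz'
    have hcz : ∀ j : Fin d, (j : ℕ) < (l : ℕ) + 1 → cj l t z j = 0 := fun j hj => by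
      rw [hcjz l t z ((l : ℕ) + 1) (by omega) hz j (by omega), hz j hj]
    have hcz' : ∀ j : Fin d, (j : ℕ) < (l : ℕ) + 1 → cj l t z' j = 0 := fun j hj => by
      rw [hcjz l t z' ((l : ℕ) + 1) (by omega) hz' j (by omega), hz' j hj]
    have h1 := hcoc z z' (Pi.single l t)
    have h2 := hcoc z (Pi.single l t) (cj l t z')
    have h3 : c (Pi.single l t) (cj l t z') = 0 := hca l t _ (fun j hj => hcz' j (by omega))
    have h4 := hcoc (Pi.single l t) (cj l t z) (cj l t z')
    have h5 : c (Pi.single l t) (cj l t z) = 0 := hca l t _ (fun j hj => hcz j (by omega))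
    have h6 : c (Pi.single l t) (mul (cj l t z) (cj l t z')) = 0 := by
      refine hca l t _ (fun j hj => ?_)
      rw [hright _ _ ((l : ℕ) + 1) hcz' j (by omega), hcz j (by omega), hcz' j (by omega), add_zero]
    rw [← hcj l t z'] at h2
    rw [hcj l t z] at h2
    rw [h3] at h2
    rw [h5, h6] at h4
    linarith
  -- (c) additivity in t
  have hkey3 : ∀ (l : Fin d) (t t' : ℝ) (z : Fin d → ℝ),
      (∀ j : Fin d, (j : ℕ) < (l : ℕ) + 1 → z j = 0) →
      c z (Pi.single l (t + t')) = c z (Pi.single l t) + c (cj l t z) (Pi.single l t') := by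
    intro l t t' z hz
    have hcz : ∀ j : Fin d, (j : ℕ) < (l : ℕ) + 1 → cj l t z j = 0 := fun j hj => by
      rw [hcjz l t z ((l : ℕ) + 1) (by omega) hz j (by omega), hz j hj]
    have hcz2 : ∀ j : Fin d, (j : ℕ) < (l : ℕ) + 1 → cj l t' (cj l t z) j = 0 := fun j hj => by
      rw [hcjz l t' (cj l t z) ((l : ℕ) + 1) (by omega) hcz j (by omega), hcz j hj]
    have h1 := hcoc z (Pi.single l t) (Pi.single l t')
    rw [hee] at h1
    have h2 : c (Pi.single l t) (Pi.single l t') = 0 :=
      hca l t _ (fun j hj => hsing_lt l t' j hj)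
    rw [h2, zero_add] at h1
    rw [← h1]
    congr 1
    rw [hcj l t z]
    have h3 := hcoc (Pi.single l t) (cj l t z) (Pi.single l t')
    have h4 : c (Pi.single l t) (cj l t z) = 0 := hca l t _ (fun j hj => hcz j (by omega))
    rw [hcj l t' (cj l t z)] at h3
    have h5 := hcoc (Pi.single l t) (Pi.single l t') (cj l t' (cj l t z))
    have h6 : c (Pi.single l t') (cj l t' (cj l t z)) = 0 :=
      hca l t' _ (fun j hj => hcz2 j (by omega))
    have h7 : c (mul (Pi.single l t) (Pi.single l t')) (cj l t' (cj l t z)) = 0 := by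
      rw [hee]
      exact hca l _ _ (fun j hj => hcz2 j (by omega))
    rw [h2, h6, h7] at h5
    rw [h4] at h3
    linarith
  -- polynomial maps
  have pm_mul : ∀ (ι : Type) (X Y : (ι → ℝ) → Fin d → ℝ), PM X → PM Y →
      PM (fun p => mul (X p) (Y p)) := by
    intro ι X Y hX hY k
    have h1 : IsPoly (fun z : (Fin d ⊕ Fin d) → ℝ => MvPolynomial.eval z (P k)) := ⟨P k, fun _ => rfl⟩
    have h2 := h1.comp (ι := ι) (g := fun p => Sum.elim (X p) (Y p)) (by
      intro i
      rcases i with i | i
      · exact hX i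
      · exact hY i)
    exact (((hX k).add (hY k)).add h2).congr (fun p => hP _ _ _)
  have pm_single : ∀ (ι : Type) (l : Fin d) (T : (ι → ℝ) → ℝ), IsPoly T →
      PM (fun p => (Pi.single l (T p) : Fin d → ℝ)) := by
    intro ι l T hT k
    by_cases hk : k = l
    · subst hk
      exact hT.congr (fun p => by simp)
    · exact (IsPoly.const 0).congr (fun p => Pi.single_eq_of_ne hk _)
  have pm_cj : ∀ (ι : Type) (l : Fin d) (T : (ι → ℝ) → ℝ) (Z : (ι → ℝ) → Fin d → ℝ), IsPoly T →
      PM Z → PM (fun p => cj l (T p) (Z p)) := by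
    intro ι l T Z hT hZ
    exact pm_mul ι _ _ (pm_mul ι _ _ (pm_single ι l _ hT.neg) hZ) (pm_single ι l _ hT)
  have pm_hi : ∀ (ι : Type) (m : ℕ) (Z : (ι → ℝ) → Fin d → ℝ), PM Z → PM (fun p => hi m (Z p)) := by
    intro ι m Z hZ k
    by_cases hk : (k : ℕ) < m
    · exact (IsPoly.const 0).congr (fun p => by simp [hi, hk])
    · exact (hZ k).congr (fun p => by simp [hi, hk])
  have pm_lo : ∀ (ι : Type) (m : ℕ) (Z : (ι → ℝ) → Fin d → ℝ), PM Z → PM (fun p => lo m (Z p)) := by
    intro ι m Z hZ k
    by_cases hk : (k : ℕ) < m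
    · exact (hZ k).congr (fun p => by simp [lo, hk])
    · exact (IsPoly.const 0).congr (fun p => by simp [lo, hk])
  -- the expansion of c x y along the coordinates of y
  have hstep : ∀ (x y : Fin d → ℝ) (m : Fin d),
      c x (lo ((m : ℕ) + 1) y) = c x (lo m y) + c (mul x (lo m y)) (Pi.single m (y m)) := by
    intro x y m
    have h1 := hcoc x (lo m y) (Pi.single m (y m))
    have h2 : c (lo m y) (Pi.single m (y m)) = 0 := by
      refine hcsplitN _ _ (m : ℕ) ?_ (fun j hj => hsing_lt m _ j hj)
      intro j hj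
      simp only [lo]
      rw [if_neg (by omega)]
    have h3 : mul (lo m y) (Pi.single m (y m)) = lo ((m : ℕ) + 1) y := by
      rw [hsplitN _ _ (m : ℕ) ?_ (fun j hj => hsing_lt m _ j hj)]
      · funext j
        simp only [Pi.add_apply, lo]
        rcases lt_trichotomy (j : ℕ) (m : ℕ) with h | h | h
        · rw [if_pos h, if_pos (by omega), hsing_lt m _ j h, add_zero]
        · have : j = m := Fin.ext h
          subst this
          simp
        · rw [if_neg (by omega), if_neg (by omega), hsing_gt m _ j h, add_zero]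
      · intro j hj
        simp only [lo]
        rw [if_neg (by omega)]
    rw [h2, h3] at h1
    linarith
  -- if the D_l are polynomial for l ≥ m, then c is polynomial for second arguments in G_(m)
  have hCofD : ∀ m : ℕ, (∀ l : Fin d, m ≤ (l : ℕ) → DP c l) → CP c m := by
    intro m hD ι X Y hX hY hYm
    have claim : ∀ n : ℕ, n ≤ d → IsPoly (fun p => c (X p) (lo n (Y p))) := by
      intro n
      induction n with
      | zero =>
        intro _
        refine (IsPoly.const 0).congr (fun p => ?_)
        have : lo 0 (Y p) = 0 := by funext j; simp [lo]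
        rw [this, hcx0]
      | succ n ih =>
        intro hn
        have ih' := ih (by omega)
        let l : Fin d := ⟨n, by omega⟩
        by_cases hmn : m ≤ n
        · have h1 := hD l hmn ι (fun p => mul (X p) (lo n (Y p))) (fun p => Y p l)
            (pm_mul ι _ _ hX (pm_lo ι n Y hY)) (hY l)
          exact (ih'.add h1).congr (fun p => hstep (X p) (Y p) l)
        · refine ih'.congr (fun p => ?_)
          rw [show lo (n + 1) (Y p) = lo n (Y p) from ?_]
          funext j
          simp only [lo]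
          by_cases hj : (j : ℕ) < n
          · rw [if_pos hj, if_pos (by omega)]
          · rw [if_neg hj]
            split_ifs with h
            · exact hYm p j (by omega)
            · rfl
    refine (claim d le_rfl).congr (fun p => ?_)
    congr 1
    funext j
    simp [lo]
  -- main downward induction on l
  have hDall : ∀ r : ℕ, ∀ l : Fin d, d ≤ (l : ℕ) + 1 + r → DP c l := by
    intro r
    induction r using Nat.strong_induction_on with
    | _ r ih =>
      intro l hl
      -- c is polynomial for second arguments in G_(l+1)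
      have hCP : CP c ((l : ℕ) + 1) := by
        refine hCofD _ (fun l' hl' => ?_)
        have hl'd := l'.2
        have hld := l.2
        refine ih (d - ((l' : ℕ) + 1)) (by omega) l' (by omega)
      -- inner downward induction on k
      have inner : ∀ n : ℕ, ∀ k : ℕ, d ≤ k + n → (l : ℕ) + 1 ≤ k →
          ∀ (ι : Type) (Z : (ι → ℝ) → Fin d → ℝ) (T : (ι → ℝ) → ℝ), PM Z → IsPoly T →
            (∀ p (j : Fin d), (j : ℕ) < k → Z p j = 0) →
            IsPoly (fun p => c (Z p) (Pi.single l (T p))) := by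
        intro n
        induction n with
        | zero =>
          intro k hk hlk ι Z T _ _ hZ
          refine (IsPoly.const 0).congr (fun p => ?_)
          have : Z p = 0 := by
            funext j
            exact hZ p j (by have := j.2; omega)
          rw [this, hc0x]
        | succ n ihn =>
          intro k hk hlk ι Z T hZPM hT hZ
          by_cases hkd : k < d
          swap
          · refine (IsPoly.const 0).congr (fun p => ?_)
            have : Z p = 0 := by
              funext j
              exact hZ p j (by have := j.2; omega)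
            rw [this, hc0x]
          let kk : Fin d := ⟨k, hkd⟩
          have hlk' : (l : ℕ) < k := by omega
          have ihn' := ihn (k + 1) (by omega) (by omega)
          have hs0 : ∀ (s : ℝ) (j : Fin d), (j : ℕ) < (l : ℕ) + 1 →
              (Pi.single kk s : Fin d → ℝ) j = 0 := fun s j hj =>
            hsing_lt kk s j (by show (j : ℕ) < k; omega)
          have hs0k : ∀ (s : ℝ) (j : Fin d), (j : ℕ) < k →
              (Pi.single kk s : Fin d → ℝ) j = 0 := fun s j hj => hsing_lt kk s j hj
          -- q(s,t)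
          let q : ℝ → ℝ → ℝ := fun s t => c (Pi.single kk s) (Pi.single l t)
          -- the part w(s,t)
          let W : ℝ → ℝ → (Fin d → ℝ) := fun s t =>
            mul (Pi.single kk (-s)) (cj l t (Pi.single kk s))
          have hcjs : ∀ s t (j : Fin d), (j : ℕ) < k → cj l t (Pi.single kk s) j = 0 := by
            intro s t j hj
            rw [hcjz l t _ k hlk' (hs0k s) j (by omega), hs0k s j hj]
          have hW0 : ∀ s t (j : Fin d), (j : ℕ) < k + 1 → W s t j = 0 := by
            intro s t j hj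
            show mul (Pi.single kk (-s)) (cj l t (Pi.single kk s)) j = 0
            rw [hleft _ _ k (hs0k (-s)) j (by omega), hcjz l t _ k hlk' (hs0k s) j (by omega)]
            by_cases hjk : j = kk
            · subst hjk
              simp
            · rw [Pi.single_eq_of_ne hjk, Pi.single_eq_of_ne hjk, add_zero]
          have hWmul : ∀ s t, mul (Pi.single kk s) (W s t) = cj l t (Pi.single kk s) := by
            intro s t
            show mul (Pi.single kk s) (mul (Pi.single kk (-s)) (cj l t (Pi.single kk s))) = _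
            rw [← hassoc, hee0', h0x]
          have hq : IsPoly2 q := by
            refine quasi2 q ?_ ?_ ?_ ?_ ?_ ?_
            · intro t
              refine hcont.comp (f := fun s : ℝ => ((Pi.single kk s : Fin d → ℝ),
                (Pi.single l t : Fin d → ℝ))) ?_
              exact (hsc kk).prodMk continuous_const
            · intro s
              refine hcont.comp (f := fun t : ℝ => ((Pi.single kk s : Fin d → ℝ),
                (Pi.single l t : Fin d → ℝ))) ?_
              exact continuous_const.prodMk (hsc l)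
            · intro t
              show c (Pi.single kk 0) _ = 0
              rw [Pi.single_zero, hc0x]
            · intro s
              show c _ (Pi.single l 0) = 0
              rw [Pi.single_zero, hcx0]
            · -- additivity in s
              have h1 := hCP (Fin 3) (fun x => cj l (x 2) (Pi.single kk (x 0)))
                (fun x => cj l (x 2) (Pi.single kk (x 1)))
                (pm_cj _ l _ _ (IsPoly.coord 2) (pm_single _ kk _ (IsPoly.coord 0)))
                (pm_cj _ l _ _ (IsPoly.coord 2) (pm_single _ kk _ (IsPoly.coord 1)))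
                (fun x j hj => hcjs _ _ j (by omega))
              refine h1.congr (fun x => ?_)
              show c (Pi.single kk (x 0 + x 1)) (Pi.single l (x 2))
                - c (Pi.single kk (x 0)) (Pi.single l (x 2))
                - c (Pi.single kk (x 1)) (Pi.single l (x 2)) = _
              rw [← hee kk, hkey2 l (x 2) _ _ (hs0 _) (hs0 _)]
              have h2 : c (Pi.single kk (x 0)) (Pi.single kk (x 1)) = 0 :=
                hca kk _ _ (fun j hj => hsing_lt kk _ j hj)
              rw [h2]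
              ring
            · -- additivity in t
              have h1 := ihn' (Fin 3) (fun x => W (x 0) (x 1)) (fun x => x 2)
                (pm_mul _ _ _ (pm_single _ kk _ (IsPoly.coord 0).neg)
                  (pm_cj _ l _ _ (IsPoly.coord 1) (pm_single _ kk _ (IsPoly.coord 0))))
                (IsPoly.coord 2) (fun x j hj => hW0 _ _ j hj)
              have h2 := hCP (Fin 3) (fun x => cj l (x 2) (Pi.single kk (x 0)))
                (fun x => cj l (x 2) (W (x 0) (x 1)))
                (pm_cj _ l _ _ (IsPoly.coord 2) (pm_single _ kk _ (IsPoly.coord 0)))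
                (pm_cj _ l _ _ (IsPoly.coord 2) (pm_mul _ _ _ (pm_single _ kk _ (IsPoly.coord 0).neg)
                  (pm_cj _ l _ _ (IsPoly.coord 1) (pm_single _ kk _ (IsPoly.coord 0)))))
                (fun x j hj => by
                  rw [hcjz l (x 2) _ (k + 1) (by omega) (hW0 (x 0) (x 1)) j (by omega),
                    hW0 _ _ j (by omega)])
              refine (h1.add h2).congr (fun x => ?_)
              show c (Pi.single kk (x 0)) (Pi.single l (x 1 + x 2))
                - c (Pi.single kk (x 0)) (Pi.single l (x 1))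
                - c (Pi.single kk (x 0)) (Pi.single l (x 2)) = _
              rw [hkey3 l (x 1) (x 2) _ (hs0 _), ← hWmul (x 0) (x 1),
                hkey2 l (x 2) _ _ (hs0 _) (fun j hj => hW0 _ _ j (by omega))]
              have h3 : c (Pi.single kk (x 0)) (W (x 0) (x 1)) = 0 :=
                hca kk _ _ (fun j hj => hW0 _ _ j (by
                  have : (j : ℕ) < k := hj
                  omega))
              rw [h3]
              ring
          -- general Z
          have hZs : ∀ p, Z p = mul (Pi.single kk (Z p kk)) (hi (k + 1) (Z p)) := by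
            intro p
            rw [hsplitN _ _ k ?_ ?_]
            · funext j
              simp only [Pi.add_apply, hi]
              rcases lt_trichotomy (j : ℕ) k with h | h | h
              · rw [if_pos (by omega), hsing_lt kk _ j h, hZ p j h, add_zero]
              · have : j = kk := Fin.ext h
                subst this
                simp [kk]
              · rw [if_neg (by omega), hsing_gt kk _ j h, zero_add]
            · intro j hj
              exact hsing_gt kk _ j hj
            · intro j hj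
              simp only [hi]
              rw [if_pos (by omega)]
          have hhi0 : ∀ p (j : Fin d), (j : ℕ) < k + 1 → hi (k + 1) (Z p) j = 0 := by
            intro p j hj
            simp only [hi]
            rw [if_pos hj]
          have t1 : IsPoly (fun p => q (Z p kk) (T p)) := by
            have := hq.comp (ι := ι) (g := fun p => ![Z p kk, T p]) (by
              intro i
              fin_cases i
              · exact hZPM kk
              · exact hT)
            exact this
          have t2 := ihn' ι (fun p => hi (k + 1) (Z p)) T (pm_hi ι _ Z hZPM) hT hhi0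
          have t3 := hCP ι (fun p => cj l (T p) (Pi.single kk (Z p kk)))
            (fun p => cj l (T p) (hi (k + 1) (Z p)))
            (pm_cj _ l _ _ hT (pm_single _ kk _ (hZPM kk)))
            (pm_cj _ l _ _ hT (pm_hi ι _ Z hZPM))
            (fun p j hj => by
              rw [hcjz l (T p) _ (k + 1) (by omega) (hhi0 p) j (by omega), hhi0 p j (by omega)])
          refine ((t1.add t2).add t3).congr (fun p => ?_)
          have h4 : c (Z p) (Pi.single l (T p))
              = c (mul (Pi.single kk (Z p kk)) (hi (k + 1) (Z p))) (Pi.single l (T p)) := by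
            rw [← hZs p]
          rw [h4, hkey2 l (T p) _ _ (hs0 _) (fun j hj => hhi0 p j (by omega))]
          have h5 : c (Pi.single kk (Z p kk)) (hi (k + 1) (Z p)) = 0 :=
            hca kk _ _ (fun j hj => hhi0 p j (by
              have : (j : ℕ) < k := hj
              omega))
          rw [h5]
          show _ = c (Pi.single kk (Z p kk)) (Pi.single l (T p)) + _ + _
          ring
      intro ι X T hX hT
      have h1 := inner d ((l : ℕ) + 1) (by omega) le_rfl ι (fun p => hi ((l : ℕ) + 1) (X p)) T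
        (pm_hi ι _ X hX) hT (fun p j hj => by
          simp only [hi]
          rw [if_pos hj])
      exact h1.congr (fun p => hkey1 l (T p) (X p))
  have hfin : CP c 0 := hCofD 0 (fun l _ => hDall d l (by omega))
  obtain ⟨Q, hQ⟩ := hfin (Fin d ⊕ Fin d) (fun z j => z (Sum.inl j)) (fun z j => z (Sum.inr j))
    (fun k => IsPoly.coord _) (fun k => IsPoly.coord _) (fun p j hj => by omega)
  refine ⟨Q, fun x y => ?_⟩
  have := hQ (Sum.elim x y)
  simpa using this

end MPd26.PolyLaw
end

section
/-!
Continuous one-parameter subgroups of a real Banach algebra are `t ↦ exp (t ξ)`; for matrices, if the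
subgroup is upper unitriangular then `ξ` is strictly upper triangular.
-/
set_option autoImplicit false
open MeasureTheory Filter Topology intervalIntegral

namespace MPd26.OnePar

section Banach

variable {A : Type*} [NormedRing A] [NormedAlgebra ℝ A] [CompleteSpace A]

theorem onePar_hasDerivAt (τ : ℝ → A) (hc : Continuous τ) (h0 : τ 0 = 1)
    (hadd : ∀ s t, τ (s + t) = τ s * τ t) :
    ∃ ξ : A, ∀ t, HasDerivAt τ (τ t * ξ) t := by
  -- the average over a short interval is invertible
  have hint : ∀ a b, IntervalIntegrable τ volume a b := fun a b => hc.intervalIntegrable a b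
  have hder0 : HasDerivAt (fun u => ∫ s in (0 : ℝ)..u, τ s) (τ 0) 0 :=
    integral_hasDerivAt_right (hint 0 0) (hc.stronglyMeasurableAtFilter _ _) hc.continuousAt
  have hlim : Tendsto (fun δ : ℝ => δ⁻¹ • ∫ s in (0 : ℝ)..δ, τ s) (𝓝[≠] 0) (𝓝 1) := by
    have h := hasDerivAt_iff_tendsto_slope.mp hder0
    rw [h0] at h
    refine h.congr' ?_
    filter_upwards with δ
    simp [slope_def_module]
  have hunit : ∀ᶠ δ : ℝ in 𝓝[≠] 0, IsUnit (δ⁻¹ • ∫ s in (0 : ℝ)..δ, τ s) := by
    have : {x : A | IsUnit x} ∈ 𝓝 (1 : A) := Units.isOpen.mem_nhds isUnit_one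
    exact hlim this
  have hne : ∀ᶠ δ : ℝ in 𝓝[≠] 0, δ ≠ 0 := eventually_nhdsWithin_of_forall (fun x hx => hx)
  obtain ⟨δ, hδ, hδ0⟩ := (hunit.and hne).exists
  set J : A := ∫ s in (0 : ℝ)..δ, τ s with hJ
  have hJu : IsUnit J := by
    have h1 : J = (δ • (1 : A)) * (δ⁻¹ • J) := by
      rw [smul_mul_smul_comm, one_mul, mul_inv_cancel₀ hδ0, one_smul]
    rw [h1]
    refine IsUnit.mul ?_ hδ
    have : IsUnit (algebraMap ℝ A δ) := (isUnit_iff_ne_zero.mpr hδ0).map (algebraMap ℝ A)
    rwa [Algebra.algebraMap_eq_smul_one] at this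
  obtain ⟨K, hK⟩ := hJu
  have hJK : J * (↑K⁻¹ : A) = 1 := by rw [← hK]; exact Units.mul_inv K
  -- differentiate `τ t * J = ∫_t^{t+δ} τ`
  have hshift : ∀ t, τ t * J = ∫ s in t..(t + δ), τ s := by
    intro t
    have h1 : τ t * J = ∫ s in (0 : ℝ)..δ, τ t * τ s := by
      exact ((ContinuousLinearMap.mul ℝ A (τ t)).intervalIntegral_comp_comm (hint 0 δ)).symm
    rw [h1]
    have h2 : (fun s => τ t * τ s) = fun s => τ (t + s) := by
      funext s; rw [hadd]
    rw [h2, intervalIntegral.integral_comp_add_left (fun s => τ s) t, add_zero]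
  have hder : ∀ t, HasDerivAt (fun t => τ t * J) (τ (t + δ) - τ t) t := by
    intro t
    have e : (fun t => τ t * J)
        = fun t => (∫ s in (0 : ℝ)..(t + δ), τ s) - ∫ s in (0 : ℝ)..t, τ s := by
      funext t
      rw [hshift, integral_interval_sub_left (hint _ _) (hint _ _)]
    rw [e]
    have h1 : HasDerivAt (fun u => ∫ s in (0 : ℝ)..u, τ s) (τ (t + δ)) (t + δ) :=
      integral_hasDerivAt_right (hint _ _) (hc.stronglyMeasurableAtFilter _ _) hc.continuousAt
    have h2 : HasDerivAt (fun u => ∫ s in (0 : ℝ)..u, τ s) (τ t) t :=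
      integral_hasDerivAt_right (hint _ _) (hc.stronglyMeasurableAtFilter _ _) hc.continuousAt
    have h3 : HasDerivAt (fun u => ∫ s in (0 : ℝ)..(u + δ), τ s) (τ (t + δ)) t := by
      have h4 := h1.scomp t ((hasDerivAt_id t).add_const δ)
      rw [one_smul] at h4
      exact h4
    exact h3.sub h2
  refine ⟨(τ δ - 1) * (↑K⁻¹ : A), fun t => ?_⟩
  have h1 : HasDerivAt (fun t => τ t * J * (↑K⁻¹ : A)) ((τ (t + δ) - τ t) * (↑K⁻¹ : A)) t :=
    (hder t).mul_const _
  have h2 : (fun t => τ t * J * (↑K⁻¹ : A)) = τ := by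
    funext t
    rw [mul_assoc, hJK, mul_one]
  rw [h2] at h1
  have h3 : (τ (t + δ) - τ t) * (↑K⁻¹ : A) = τ t * ((τ δ - 1) * (↑K⁻¹ : A)) := by
    rw [hadd, ← mul_assoc, mul_sub, mul_one]
  rwa [h3] at h1

theorem onePar_banach (τ : ℝ → A) (hc : Continuous τ) (h0 : τ 0 = 1)
    (hadd : ∀ s t, τ (s + t) = τ s * τ t) :
    ∃ ξ : A, HasDerivAt τ ξ 0 ∧ ∀ t, τ t = NormedSpace.exp (t • ξ) := by
  obtain ⟨ξ, hξ⟩ := onePar_hasDerivAt τ hc h0 hadd
  refine ⟨ξ, ?_, ?_⟩
  · have := hξ 0
    rwa [h0, one_mul] at this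
  have hexp : ∀ t : ℝ, HasDerivAt (fun u : ℝ => NormedSpace.exp (u • (-ξ)))
      ((-ξ) * NormedSpace.exp (t • (-ξ))) t := fun t => hasDerivAt_exp_smul_const' (𝕂 := ℝ) (-ξ) t
  have hconst : ∀ t : ℝ, τ t * NormedSpace.exp (t • (-ξ)) = 1 := by
    have hd : ∀ t : ℝ, HasDerivAt (fun u : ℝ => τ u * NormedSpace.exp (u • (-ξ))) 0 t := by
      intro t
      have := (hξ t).mul (hexp t)
      have e : τ t * ξ * NormedSpace.exp (t • (-ξ))
          + τ t * ((-ξ) * NormedSpace.exp (t • (-ξ))) = 0 := by
        noncomm_ring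
      rwa [e] at this
    have hdiff : Differentiable ℝ (fun u : ℝ => τ u * NormedSpace.exp (u • (-ξ))) :=
      fun t => (hd t).differentiableAt
    have hderiv : ∀ t, deriv (fun u : ℝ => τ u * NormedSpace.exp (u • (-ξ))) t = 0 :=
      fun t => (hd t).deriv
    intro t
    have := is_const_of_deriv_eq_zero hdiff hderiv t 0
    simp only [zero_smul, NormedSpace.exp_zero, mul_one, h0] at this
    exact this
  intro t
  let _ : NormedAlgebra ℚ A := NormedAlgebra.restrictScalars ℚ ℝ A
  have hinv : NormedSpace.exp (t • (-ξ)) * NormedSpace.exp (t • ξ) = 1 := by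
    have hcomm : Commute (t • (-ξ)) (t • ξ) := by
      have : t • (-ξ) = -(t • ξ) := by rw [smul_neg]
      rw [this]
      exact (Commute.refl (t • ξ)).neg_left
    rw [← NormedSpace.exp_add_of_commute hcomm]
    have : t • (-ξ) + t • ξ = 0 := by rw [smul_neg]; abel
    rw [this, NormedSpace.exp_zero]
  calc τ t = τ t * (NormedSpace.exp (t • (-ξ)) * NormedSpace.exp (t • ξ)) := by
        rw [hinv, mul_one]
    _ = NormedSpace.exp (t • ξ) := by rw [← mul_assoc, hconst, one_mul]

end Banach

section Matrices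

attribute [local instance] Matrix.linftyOpNormedRing Matrix.linftyOpNormedAlgebra

theorem onePar_matrix (M : ℕ) (τ : ℝ → Matrix (Fin M) (Fin M) ℝ) (hc : Continuous τ) (h0 : τ 0 = 1)
    (hadd : ∀ s t, τ (s + t) = τ s * τ t) :
    ∃ ξ : Matrix (Fin M) (Fin M) ℝ, (∀ t, τ t = NormedSpace.exp (t • ξ)) ∧
      ∀ i j, HasDerivAt (fun t => τ t i j) (ξ i j) 0 := by
  obtain ⟨ξ, h1, h2⟩ := onePar_banach τ hc h0 hadd
  refine ⟨ξ, h2, fun i j => ?_⟩
  exact (hasDerivAt_pi.mp ((hasDerivAt_pi.mp h1) i)) j

theorem onePar (M : ℕ) (τ : ℝ → Matrix (Fin M) (Fin M) ℝ) (hc : Continuous τ) (h0 : τ 0 = 1)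
    (hadd : ∀ s t, τ (s + t) = τ s * τ t)
    (htri : ∀ t i j, j < i → τ t i j = 0) (hdiag : ∀ t i, τ t i i = 1) :
    ∃ ξ : Matrix (Fin M) (Fin M) ℝ, (∀ i j, j ≤ i → ξ i j = 0) ∧
      ∀ t, τ t = NormedSpace.exp (t • ξ) := by
  obtain ⟨ξ, h1, h2⟩ := onePar_matrix M τ hc h0 hadd
  refine ⟨ξ, ?_, h1⟩
  intro i j hij
  rcases eq_or_lt_of_le hij with h | h
  · subst h
    have h3 := h2 j j
    have h4 : (fun t => τ t j j) = fun _ => (1 : ℝ) := by funext t; exact hdiag t j
    rw [h4] at h3
    exact h3.unique (hasDerivAt_const _ _)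
  · have h3 := h2 i j
    have h4 : (fun t => τ t i j) = fun _ => (0 : ℝ) := by funext t; exact htri t i j h
    rw [h4] at h3
    exact h3.unique (hasDerivAt_const _ _)

end Matrices

end MPd26.OnePar
end

section
/-!
Polynomial triangular group laws on `ℝ^n` for which `ℤ^n` is closed under multiplication embed in
the group of real upper unitriangular matrices, and the matrix is integral exactly for the points
of `ℤ^n`.  The matrix is that of left translation in the basis of products of binomials.
-/
set_option autoImplicit false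
open scoped BigOperators

namespace MPd26.PolyEmb

/-- binomial polynomial `x (x-1) ... (x-a+1) / a!` -/
noncomputable def ch (a : ℕ) (x : ℝ) : ℝ := Ring.choose x a

lemma ch_zero (x : ℝ) : ch 0 x = 1 := by simp [ch]

lemma ch_one (x : ℝ) : ch 1 x = x := by simp [ch]

lemma ch_succ (a : ℕ) (x : ℝ) : ((a : ℝ) + 1) * ch (a + 1) x = (x - a) * ch a x := by
  have h := Ring.choose_smul_choose x (Nat.le_succ a)
  have h1 : (a + 1) - a = 1 := by omega
  simp only [Nat.succ_eq_add_one, h1, Ring.choose_one_right, Nat.choose_succ_self_right,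
    nsmul_eq_mul] at h
  unfold ch
  push_cast at h
  linarith

lemma ch_nat (a n : ℕ) : ch a (n : ℝ) = (n.choose a : ℝ) := by
  unfold ch
  exact Ring.choose_natCast n a

lemma ch_int (a : ℕ) (z : ℤ) : ∃ k : ℤ, ch a (z : ℝ) = k := by
  refine ⟨Ring.choose z a, ?_⟩
  unfold ch
  have := Ring.map_choose (Int.castRingHom ℝ) z a
  simpa using this.symm

lemma ch_add (a : ℕ) (x y : ℝ) :
    ch a (x + y) = ∑ ij ∈ Finset.HasAntidiagonal.antidiagonal a, ch ij.1 x * ch ij.2 y := by
  unfold ch
  exact Ring.add_choose_eq a (Commute.all x y)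

lemma ch_succ' (a : ℕ) (x : ℝ) : ch (a + 1) x = ((a : ℝ) + 1)⁻¹ * ((x - a) * ch a x) := by
  have : ((a : ℝ) + 1) ≠ 0 := by positivity
  rw [← ch_succ]
  field_simp

lemma ch_continuous (a : ℕ) : Continuous (ch a) := by
  induction a with
  | zero =>
    have : ch 0 = fun _ => (1 : ℝ) := by funext x; exact ch_zero x
    rw [this]; exact continuous_const
  | succ a ih =>
    have : ch (a + 1) = fun x => ((a : ℝ) + 1)⁻¹ * ((x - a) * ch a x) := by
      funext x; exact ch_succ' a x
    rw [this]
    fun_prop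

variable {n : ℕ}

/-- real functions on `ℝ^n` -/
abbrev Fn (n : ℕ) := (Fin n → ℝ) → ℝ

/-- product of binomials -/
noncomputable def bs (α : Fin n → ℕ) : Fn n := fun t => ∏ j, ch (α j) (t j)

/-- weight of an exponent -/
def wt (w : Fin n → ℕ) (α : Fin n → ℕ) : ℕ := ∑ j, w j * α j

/-- functions of weighted degree `< D` -/
noncomputable def FL (w : Fin n → ℕ) (D : ℕ) : Submodule ℝ (Fn n) :=
  Submodule.span ℝ (bs '' {α | wt w α < D})

lemma bs_mem (w : Fin n → ℕ) {D : ℕ} {α : Fin n → ℕ} (h : wt w α < D) : bs α ∈ FL w D :=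
  Submodule.subset_span ⟨α, h, rfl⟩

lemma FL_mono (w : Fin n → ℕ) {D E : ℕ} (h : D ≤ E) : FL w D ≤ FL w E :=
  Submodule.span_mono (Set.image_mono (fun _ hα => lt_of_lt_of_le hα h))

lemma bs_zero : bs (0 : Fin n → ℕ) = 1 := by
  funext t
  simp [bs, ch_zero]

lemma one_mem_FL (w : Fin n → ℕ) : (1 : Fn n) ∈ FL w 1 := by
  rw [← bs_zero]
  exact bs_mem w (by simp [wt])

lemma bs_add_single (α : Fin n → ℕ) (j : Fin n) (t : Fin n → ℝ) :
    t j * bs α t = ((α j : ℝ) + 1) * bs (α + Pi.single j 1) t + (α j : ℝ) * bs α t := by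
  have h1 : bs α t = ch (α j) (t j) * ∏ i ∈ Finset.univ.erase j, ch (α i) (t i) := by
    unfold bs
    rw [Finset.mul_prod_erase _ (fun i => ch (α i) (t i)) (Finset.mem_univ j)]
  have h2 : bs (α + Pi.single j 1) t
      = ch (α j + 1) (t j) * ∏ i ∈ Finset.univ.erase j, ch (α i) (t i) := by
    unfold bs
    rw [← Finset.mul_prod_erase _ _ (Finset.mem_univ j)]
    congr 1
    · simp
    · refine Finset.prod_congr rfl (fun i hi => ?_)
      have : i ≠ j := Finset.ne_of_mem_erase hi
      simp [Pi.single_eq_of_ne this]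
  rw [h1, h2, ← mul_assoc ((α j : ℝ) + 1), ch_succ]
  ring

lemma wt_add_single (w α : Fin n → ℕ) (j : Fin n) :
    wt w (α + Pi.single j 1) = wt w α + w j := by
  unfold wt
  simp only [Pi.add_apply, mul_add, Finset.sum_add_distrib]
  congr 1
  rw [Finset.sum_eq_single j]
  · simp
  · intro i _ hi
    simp [Pi.single_eq_of_ne hi]
  · intro h; exact absurd (Finset.mem_univ j) h

/-- `F` has weighted degree `≤ k` -/
def isD (w : Fin n → ℕ) (k : ℕ) (F : Fn n) : Prop :=
  ∀ D G, G ∈ FL w D → F * G ∈ FL w (D + k)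

/-- `F` has weighted degree `< k` -/
def isD' (w : Fin n → ℕ) (k : ℕ) (F : Fn n) : Prop :=
  ∀ D G, G ∈ FL w (D + 1) → F * G ∈ FL w (D + k)

variable {w : Fin n → ℕ}

lemma isD.mono {k l : ℕ} {F : Fn n} (h : isD w k F) (hkl : k ≤ l) : isD w l F :=
  fun D G hG => FL_mono w (by omega) (h D G hG)

lemma isD_const (c : ℝ) : isD w 0 (fun _ => c) := by
  intro D G hG
  have : (fun _ => c : Fn n) * G = c • G := by funext t; simp
  rw [this]
  exact (FL w D).smul_mem c hG

lemma isD.add {k : ℕ} {F G : Fn n} (hF : isD w k F) (hG : isD w k G) : isD w k (F + G) := by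
  intro D H hH
  rw [add_mul]
  exact Submodule.add_mem _ (hF D H hH) (hG D H hH)

lemma isD.sub {k : ℕ} {F G : Fn n} (hF : isD w k F) (hG : isD w k G) : isD w k (F - G) := by
  intro D H hH
  rw [sub_mul]
  exact Submodule.sub_mem _ (hF D H hH) (hG D H hH)

lemma isD.mul {k l : ℕ} {F G : Fn n} (hF : isD w k F) (hG : isD w l G) :
    isD w (k + l) (F * G) := by
  intro D H hH
  rw [mul_assoc]
  have := hF _ _ (hG D H hH)
  exact FL_mono w (by omega) this

lemma isD_one : isD w 0 (1 : Fn n) := isD_const 1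

lemma isD_zero (k : ℕ) : isD w k (0 : Fn n) := by
  intro D H _
  rw [zero_mul]; exact Submodule.zero_mem _

lemma isD.sum {ι : Type*} {k : ℕ} (S : Finset ι) {F : ι → Fn n} (h : ∀ i ∈ S, isD w k (F i)) :
    isD w k (∑ i ∈ S, F i) := by
  classical
  induction S using Finset.induction_on with
  | empty => simpa using isD_zero k
  | insert a S ha ih =>
    rw [Finset.sum_insert ha]
    exact (h a (Finset.mem_insert_self _ _)).add
      (ih (fun i hi => h i (Finset.mem_insert_of_mem hi)))

lemma isD.prod {ι : Type*} {k : ι → ℕ} (S : Finset ι) {F : ι → Fn n}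
    (h : ∀ i ∈ S, isD w (k i) (F i)) : isD w (∑ i ∈ S, k i) (∏ i ∈ S, F i) := by
  classical
  induction S using Finset.induction_on with
  | empty => simpa using isD_one
  | insert a S ha ih =>
    rw [Finset.sum_insert ha, Finset.prod_insert ha]
    exact (h a (Finset.mem_insert_self _ _)).mul
      (ih (fun i hi => h i (Finset.mem_insert_of_mem hi)))

lemma isD.pow {k : ℕ} {F : Fn n} (h : isD w k F) (m : ℕ) : isD w (k * m) (F ^ m) := by
  induction m with
  | zero => simpa using isD_one
  | succ m ih =>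
    rw [pow_succ, Nat.mul_succ]
    exact ih.mul h

lemma isD_coord (j : Fin n) : isD w (w j) (fun t => t j) := by
  intro D G hG
  unfold FL at hG
  induction hG using Submodule.span_induction with
  | mem G hG =>
    obtain ⟨α, hα, rfl⟩ := hG
    have h1 : (fun t : Fin n → ℝ => t j) * bs α
        = ((α j : ℝ) + 1) • bs (α + Pi.single j 1) + (α j : ℝ) • bs α := by
      funext t
      simpa using bs_add_single α j t
    rw [h1]
    refine Submodule.add_mem _ (Submodule.smul_mem _ _ (bs_mem w ?_))
      (Submodule.smul_mem _ _ (bs_mem w ?_))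
    · rw [wt_add_single]; have : wt w α < D := hα; omega
    · have : wt w α < D := hα; omega
  | zero => rw [mul_zero]; exact Submodule.zero_mem _
  | add x y _ _ hx hy => rw [mul_add]; exact Submodule.add_mem _ hx hy
  | smul a x _ hx => rw [mul_smul_comm]; exact Submodule.smul_mem _ _ hx

lemma isD_ch {k : ℕ} {y : Fn n} (h : isD w k y) (a : ℕ) : isD w (k * a) (fun t => ch a (y t)) := by
  induction a with
  | zero =>
    have : (fun t => ch 0 (y t)) = (fun _ => (1 : ℝ)) := by funext t; exact ch_zero _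
    rw [this]; simpa using (isD_const (w := w) (1 : ℝ))
  | succ a ih =>
    have : (fun t => ch (a + 1) (y t))
        = (fun _ => ((a : ℝ) + 1)⁻¹) * ((y - fun _ => (a : ℝ)) * (fun t => ch a (y t))) := by
      funext t
      simpa using ch_succ' a (y t)
    rw [this, Nat.mul_succ]
    refine ((isD_const _).mul ((h.sub ((isD_const _).mono (Nat.zero_le _))).mul ih)).mono ?_
    omega

lemma isD_bs (α : Fin n → ℕ) : isD w (wt w α) (bs α) := by
  have : bs α = ∏ j, (fun t : Fin n → ℝ => ch (α j) (t j)) := by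
    funext t
    simp [bs]
  rw [this]
  exact isD.prod Finset.univ (fun j _ => isD_ch (isD_coord j) (α j))

lemma isD.mem {k : ℕ} {F : Fn n} (h : isD w k F) : F ∈ FL w (k + 1) := by
  have := h 1 1 (one_mem_FL w)
  rw [mul_one] at this
  rwa [add_comm] at this

lemma isD.lt {k : ℕ} {F : Fn n} (h : isD w k F) : isD' w (k + 1) F := by
  intro D G hG
  exact FL_mono w (by omega) (h (D + 1) G hG)

lemma isD'.mono {k l : ℕ} {F : Fn n} (h : isD' w k F) (hkl : k ≤ l) : isD' w l F :=
  fun D G hG => FL_mono w (by omega) (h D G hG)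

lemma isD'_zero (k : ℕ) : isD' w k (0 : Fn n) := by
  intro D H _
  rw [zero_mul]; exact Submodule.zero_mem _

lemma isD'.add {k : ℕ} {F G : Fn n} (hF : isD' w k F) (hG : isD' w k G) : isD' w k (F + G) := by
  intro D H hH
  rw [add_mul]
  exact Submodule.add_mem _ (hF D H hH) (hG D H hH)

lemma isD'.sum {ι : Type*} {k : ℕ} (S : Finset ι) {F : ι → Fn n}
    (h : ∀ i ∈ S, isD' w k (F i)) : isD' w k (∑ i ∈ S, F i) := by
  classical
  induction S using Finset.induction_on with
  | empty => simpa using isD'_zero k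
  | insert a S ha ih =>
    rw [Finset.sum_insert ha]
    exact (h a (Finset.mem_insert_self _ _)).add
      (ih (fun i hi => h i (Finset.mem_insert_of_mem hi)))

lemma isD'.mul {k l : ℕ} {F G : Fn n} (hF : isD' w k F) (hG : isD w l G) :
    isD' w (k + l) (F * G) := by
  intro D H hH
  rw [mul_assoc]
  have h1 := hG _ _ hH
  have h2 : G * H ∈ FL w (D + l + 1) := FL_mono w (by omega) h1
  exact FL_mono w (by omega) (hF _ _ h2)

lemma isD'.mem {k : ℕ} {F : Fn n} (h : isD' w k F) : F ∈ FL w k := by
  have := h 0 1 (by simpa using one_mem_FL w)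
  rwa [mul_one, Nat.zero_add] at this

lemma isD'_prod {ι : Type*} {k : ι → ℕ} (S : Finset ι) {F G : ι → Fn n}
    (hF : ∀ i ∈ S, isD w (k i) (F i)) (hG : ∀ i ∈ S, isD w (k i) (G i))
    (h : ∀ i ∈ S, isD' w (k i) (F i - G i)) :
    isD' w (∑ i ∈ S, k i) (∏ i ∈ S, F i - ∏ i ∈ S, G i) := by
  classical
  induction S using Finset.induction_on with
  | empty => simpa using isD'_zero (w := w) 0
  | insert a S ha ih =>
    rw [Finset.sum_insert ha, Finset.prod_insert ha, Finset.prod_insert ha]
    have e : F a * ∏ i ∈ S, F i - G a * ∏ i ∈ S, G i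
        = (F a - G a) * ∏ i ∈ S, F i + (∏ i ∈ S, F i - ∏ i ∈ S, G i) * G a := by ring
    rw [e]
    have hS := ih (fun i hi => hF i (Finset.mem_insert_of_mem hi))
      (fun i hi => hG i (Finset.mem_insert_of_mem hi))
      (fun i hi => h i (Finset.mem_insert_of_mem hi))
    refine isD'.add ?_ ?_
    · exact (h a (Finset.mem_insert_self _ _)).mul
        (isD.prod S (fun i hi => hF i (Finset.mem_insert_of_mem hi)))
    · exact (hS.mul (hG a (Finset.mem_insert_self _ _))).mono (by omega)

/-- one factor -/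
lemma isD'_factor {k l : ℕ} {x y : Fn n} (hx : isD w k x) (hy : isD w l y) (hlk : l < k) (a : ℕ) :
    isD' w (k * a) ((fun t => ch a (x t + y t)) - fun t => ch a (x t)) := by
  have e : ((fun t => ch a (x t + y t)) - fun t => ch a (x t))
      = ∑ ij ∈ Finset.HasAntidiagonal.antidiagonal a, (if ij.2 = 0 then (0 : Fn n)
          else (fun t => ch ij.1 (x t)) * (fun t => ch ij.2 (y t))) := by
    funext t
    simp only [Pi.sub_apply, Finset.sum_apply]
    rw [ch_add]
    have hmem : (a, 0) ∈ Finset.HasAntidiagonal.antidiagonal a := by simp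
    rw [← Finset.add_sum_erase _ _ hmem, ← Finset.add_sum_erase _ _ hmem]
    simp only [ch_zero, mul_one, if_true, Pi.zero_apply, zero_add, add_sub_cancel_left]
    refine Finset.sum_congr rfl (fun ij hij => ?_)
    have h1 := Finset.mem_of_mem_erase hij
    have h2 := Finset.ne_of_mem_erase hij
    have h3 : ij.2 ≠ 0 := by
      intro h0
      apply h2
      have : ij.1 + ij.2 = a := by simpa using h1
      ext <;> simp <;> omega
    simp [h3]
  rw [e]
  refine isD'.sum _ (fun ij hij => ?_)
  have hsum : ij.1 + ij.2 = a := by simpa using hij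
  split_ifs with h0
  · exact isD'_zero _
  · refine ((isD_ch hx ij.1).mul (isD_ch hy ij.2)).lt.mono ?_
    rw [← hsum, Nat.mul_add]
    have : l * ij.2 + 1 ≤ k * ij.2 := by
      have h1 : 1 ≤ ij.2 := Nat.one_le_iff_ne_zero.mpr h0
      nlinarith
    omega

/-- polynomials -/
lemma isD_eval (s : Fin n → ℝ) (p : MvPolynomial (Fin n ⊕ Fin n) ℝ) (B : ℕ)
    (hB : ∀ i, Sum.inr i ∈ p.vars → w i ≤ B) :
    isD w (B * p.totalDegree) (fun t => MvPolynomial.eval (Sum.elim s t) p) := by
  classical
  have e : (fun t : Fin n → ℝ => MvPolynomial.eval (Sum.elim s t) p)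
      = ∑ d ∈ p.support, ((fun _ => MvPolynomial.coeff d p : Fn n) *
          ∏ i ∈ d.support, (fun t : Fin n → ℝ => Sum.elim s t i) ^ (d i)) := by
    funext t
    rw [MvPolynomial.eval_eq]
    simp
  rw [e]
  refine isD.sum _ (fun d hd => ?_)
  have h1 : ∀ i ∈ d.support, isD w (B * d i) ((fun t : Fin n → ℝ => Sum.elim s t i) ^ (d i)) := by
    intro i hi
    rcases i with i | i
    · have : (fun t : Fin n → ℝ => (Sum.elim s t (Sum.inl i) : ℝ)) = fun _ => s i := by
        funext t; simp
      rw [this]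
      exact ((isD_const (s i)).pow _).mono (by omega)
    · have : (fun t : Fin n → ℝ => (Sum.elim s t (Sum.inr i) : ℝ)) = fun t => t i := by
        funext t; simp
      rw [this]
      refine ((isD_coord i).pow _).mono ?_
      refine Nat.mul_le_mul_right _ (hB i ?_)
      rw [MvPolynomial.mem_vars_iff_mem_support]
      exact ⟨d, hd, hi⟩
  have h2 := isD.prod d.support h1
  refine ((isD_const (MvPolynomial.coeff d p)).mul h2).mono ?_
  rw [← Finset.mul_sum, Nat.zero_add]
  refine Nat.mul_le_mul_left _ ?_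
  have := MvPolynomial.le_totalDegree hd
  simpa [Finsupp.sum] using this

/-! ### coefficients -/

/-- coefficient functional -/
noncomputable def cf (β : Fin n → ℕ) (F : Fn n) : ℝ :=
  ∑ γ ∈ Fintype.piFinset (fun j => Finset.range (β j + 1)),
    (∏ j, ((-1 : ℝ) ^ (β j - γ j) * ((β j).choose (γ j) : ℝ))) * F (fun j => (γ j : ℝ))

lemma cf_add (β : Fin n → ℕ) (F G : Fn n) : cf β (F + G) = cf β F + cf β G := by
  simp [cf, mul_add, Finset.sum_add_distrib]

lemma cf_smul (β : Fin n → ℕ) (c : ℝ) (F : Fn n) : cf β (c • F) = c * cf β F := by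
  simp only [cf, Pi.smul_apply, smul_eq_mul, Finset.mul_sum]
  refine Finset.sum_congr rfl (fun γ _ => by ring)

lemma cf_zero (β : Fin n → ℕ) : cf β (0 : Fn n) = 0 := by simp [cf]

lemma cf_sub (β : Fin n → ℕ) (F G : Fn n) : cf β (F - G) = cf β F - cf β G := by
  simp [cf, mul_sub, Finset.sum_sub_distrib]

lemma cf_sum {ι : Type*} (S : Finset ι) (β : Fin n → ℕ) (F : ι → Fn n) :
    cf β (∑ i ∈ S, F i) = ∑ i ∈ S, cf β (F i) := by
  classical
  induction S using Finset.induction_on with
  | empty => simp [cf_zero]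
  | insert a S ha ih => rw [Finset.sum_insert ha, Finset.sum_insert ha, cf_add, ih]

lemma one_dim (a b : ℕ) :
    ∑ g ∈ Finset.range (b + 1), ((-1 : ℝ) ^ (b - g) * (b.choose g : ℝ)) * (g.choose a : ℝ)
      = if b = a then 1 else 0 := by
  have h := fwdDiff_iter_choose_zero a b
  rw [fwdDiff_iter_eq_sum_shift] at h
  have h2 := congrArg (fun z : ℤ => (z : ℝ)) h
  simp only [Int.cast_sum, smul_eq_mul, Int.cast_mul, Int.cast_pow, Int.cast_neg, Int.cast_one,
    Int.cast_natCast, zero_add, mul_one] at h2
  rw [h2]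
  split_ifs <;> simp

lemma cf_bs (α β : Fin n → ℕ) : cf β (bs α) = if β = α then 1 else 0 := by
  classical
  unfold cf bs
  have h1 : ∀ γ : Fin n → ℕ,
      (∏ j, ((-1 : ℝ) ^ (β j - γ j) * ((β j).choose (γ j) : ℝ))) * ∏ j, ch (α j) ((γ j : ℕ) : ℝ)
      = ∏ j, (((-1 : ℝ) ^ (β j - γ j) * ((β j).choose (γ j) : ℝ)) * ((γ j).choose (α j) : ℝ)) := by
    intro γ
    rw [← Finset.prod_mul_distrib]
    refine Finset.prod_congr rfl (fun j _ => ?_)
    rw [ch_nat]
  simp only [h1]
  rw [← Finset.prod_univ_sum (fun j => Finset.range (β j + 1))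
    (fun j g => (((-1 : ℝ) ^ (β j - g) * ((β j).choose g : ℝ)) * (g.choose (α j) : ℝ)))]
  simp only [one_dim]
  by_cases h : β = α
  · subst h; simp
  · rw [if_neg h]
    obtain ⟨j, hj⟩ := Function.ne_iff.mp h
    exact Finset.prod_eq_zero (Finset.mem_univ j) (by simp [hj])

lemma cf_of_mem {D : ℕ} {F : Fn n} (hF : F ∈ FL w D) {β : Fin n → ℕ} (hβ : D ≤ wt w β) :
    cf β F = 0 := by
  unfold FL at hF
  induction hF using Submodule.span_induction with
  | mem G hG =>
    obtain ⟨α, hα, rfl⟩ := hG
    rw [cf_bs, if_neg]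
    rintro rfl
    have : wt w β < D := hα
    omega
  | zero => exact cf_zero β
  | add x y _ _ hx hy => rw [cf_add, hx, hy, add_zero]
  | smul a x _ hx => rw [cf_smul, hx, mul_zero]

/-- finite set of exponents of weight `< D` -/
def ex (w : Fin n → ℕ) (D : ℕ) : Finset (Fin n → ℕ) :=
  (Fintype.piFinset (fun _ => Finset.range D)).filter (fun α => wt w α < D)

lemma mem_ex (hw : ∀ j, 1 ≤ w j) {D : ℕ} {α : Fin n → ℕ} : α ∈ ex w D ↔ wt w α < D := by
  unfold ex
  rw [Finset.mem_filter]
  refine ⟨fun h => h.2, fun h => ⟨?_, h⟩⟩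
  rw [Fintype.mem_piFinset]
  intro j
  rw [Finset.mem_range]
  have h1 : w j * α j ≤ wt w α :=
    Finset.single_le_sum (f := fun i => w i * α i) (fun i _ => Nat.zero_le _) (Finset.mem_univ j)
  have h2 := hw j
  nlinarith

lemma expand (hw : ∀ j, 1 ≤ w j) {D : ℕ} {F : Fn n} (hF : F ∈ FL w D) :
    F = ∑ β : {α // α ∈ ex w D}, cf β.1 F • bs β.1 := by
  classical
  unfold FL at hF
  induction hF using Submodule.span_induction with
  | mem G hG =>
    obtain ⟨α, hα, rfl⟩ := hG
    have hmem : α ∈ ex w D := (mem_ex hw).2 hα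
    rw [Finset.sum_eq_single ⟨α, hmem⟩]
    · simp [cf_bs]
    · intro β _ hβ
      have : β.1 ≠ α := fun h => hβ (Subtype.ext h)
      simp [cf_bs, this]
    · intro h; exact absurd (Finset.mem_univ _) h
  | zero => simp [cf_zero]
  | add x y _ _ hx hy =>
    conv_lhs => rw [hx, hy]
    rw [← Finset.sum_add_distrib]
    refine Finset.sum_congr rfl (fun β _ => ?_)
    rw [cf_add, add_smul]
  | smul a x _ hx =>
    conv_lhs => rw [hx]
    rw [Finset.smul_sum]
    refine Finset.sum_congr rfl (fun β _ => ?_)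
    rw [cf_smul, mul_smul]

/-- integral vectors -/
def IsInt (s : Fin n → ℝ) : Prop := ∀ j, ∃ k : ℤ, s j = k

/-- sorting a finite type by weight, heaviest first -/
lemma exists_sort {ι : Type*} [Fintype ι] (v : ι → ℕ) :
    ∃ e : ι ≃ Fin (Fintype.card ι), ∀ i j, i ≤ j → v (e.symm j) ≤ v (e.symm i) := by
  classical
  let e0 := Fintype.equivFin ι
  let f : Fin (Fintype.card ι) → ℕᵒᵈ := fun i => OrderDual.toDual (v (e0.symm i))
  have hmono := Tuple.monotone_sort f
  refine ⟨e0.trans (Tuple.sort f).symm, ?_⟩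
  intro i j hij
  have := hmono hij
  simpa [f] using this

theorem polyEmb (n : ℕ) (mul : (Fin n → ℝ) → (Fin n → ℝ) → (Fin n → ℝ))
    (P : Fin n → MvPolynomial (Fin n ⊕ Fin n) ℝ)
    (hP : ∀ s t j, mul s t j = s j + t j + MvPolynomial.eval (Sum.elim s t) (P j))
    (hvars : ∀ j i, Sum.inr i ∈ (P j).vars → i < j)
    (hassoc : ∀ s t u, mul (mul s t) u = mul s (mul t u))
    (h0 : ∀ s, mul s 0 = s) (h0' : ∀ t, mul 0 t = t)
    (hZ : ∀ s t, IsInt s → IsInt t → IsInt (mul s t)) :
    ∃ (M : ℕ) (ρ : (Fin n → ℝ) → Matrix (Fin M) (Fin M) ℝ),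
      (∀ s t, ρ (mul s t) = ρ s * ρ t) ∧
      ρ 0 = 1 ∧
      (∀ s i j, j < i → ρ s i j = 0) ∧
      (∀ s i, ρ s i i = 1) ∧
      Continuous ρ ∧
      Function.Injective ρ ∧
      (∀ s, (∀ i j, ∃ k : ℤ, ρ s i j = k) ↔ IsInt s) := by
  classical
  -- weights
  set d : ℕ := ∑ j, (P j).totalDegree with hd
  set w : Fin n → ℕ := fun j => (d + 1) ^ (j : ℕ) with hwdef
  have hw1 : ∀ j, 1 ≤ w j := fun j => Nat.one_le_pow _ _ (Nat.succ_pos d)
  have hdeg : ∀ j, (P j).totalDegree ≤ d := fun j =>
    Finset.single_le_sum (f := fun j => (P j).totalDegree) (fun _ _ => Nat.zero_le _)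
      (Finset.mem_univ j)
  -- the translation part has small degree
  have hy : ∀ s j, isD w (w j - 1)
      (fun t => s j + MvPolynomial.eval (Sum.elim s t) (P j)) := by
    intro s j
    have key : ∃ B, (∀ i, Sum.inr i ∈ (P j).vars → w i ≤ B) ∧
        B * (P j).totalDegree ≤ w j - 1 := by
      rcases Nat.eq_zero_or_pos (j : ℕ) with h | h
      · refine ⟨0, ?_, by simp⟩
        intro i hi
        have := hvars j i hi
        have h2 : (i : ℕ) < (j : ℕ) := this
        omega
      · refine ⟨(d + 1) ^ ((j : ℕ) - 1), ?_, ?_⟩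
        · intro i hi
          have h2 : (i : ℕ) < (j : ℕ) := hvars j i hi
          exact Nat.pow_le_pow_right (Nat.succ_pos d) (by omega)
        · have e : w j = (d + 1) ^ ((j : ℕ) - 1) * (d + 1) := by
            have : (j : ℕ) = ((j : ℕ) - 1) + 1 := by omega
            rw [hwdef]
            simp only
            rw [← pow_succ, ← this]
          have h3 : 1 ≤ (d + 1) ^ ((j : ℕ) - 1) := Nat.one_le_pow _ _ (Nat.succ_pos d)
          have h4 := Nat.mul_le_mul_left ((d + 1) ^ ((j : ℕ) - 1)) (hdeg j)
          rw [e, Nat.mul_succ]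
          omega
    obtain ⟨B, hB1, hB2⟩ := key
    exact ((isD_const (s j)).mono (Nat.zero_le _)).add ((isD_eval s (P j) B hB1).mono hB2)
  have hmulj : ∀ s t j, mul s t j = t j + (s j + MvPolynomial.eval (Sum.elim s t) (P j)) := by
    intro s t j; rw [hP]; ring
  -- left translates of basis functions
  have hL : ∀ s α, isD' w (wt w α) ((fun t => bs α (mul s t)) - bs α) := by
    intro s α
    have e1 : (fun t => bs α (mul s t)) = ∏ j, (fun t : Fin n → ℝ =>
        ch (α j) (t j + (s j + MvPolynomial.eval (Sum.elim s t) (P j)))) := by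
      funext t
      simp [bs, hmulj]
    have e2 : bs α = ∏ j, (fun t : Fin n → ℝ => ch (α j) (t j)) := by
      funext t
      simp [bs]
    rw [e1, e2]
    unfold wt
    refine isD'_prod Finset.univ (fun j _ => ?_) (fun j _ => isD_ch (isD_coord j) (α j))
      (fun j _ => ?_)
    · exact isD_ch ((isD_coord j).add ((hy s j).mono (by omega))) (α j)
    · exact isD'_factor (isD_coord j) (hy s j) (by have := hw1 j; omega) (α j)
  -- the dimension bound
  set D : ℕ := (∑ j, w j) + 1 with hD
  let ι := {α // α ∈ ex w D}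
  have hLmem : ∀ s (α : ι), (fun t => bs α.1 (mul s t)) ∈ FL w D := by
    intro s α
    have hα : wt w α.1 < D := (mem_ex hw1).1 α.2
    have h1 : ((fun t => bs α.1 (mul s t)) - bs α.1) ∈ FL w D :=
      FL_mono w (by omega) (hL s α.1).mem
    have h2 : bs α.1 ∈ FL w D := bs_mem w hα
    have := Submodule.add_mem _ h1 h2
    simpa using this
  let N : (Fin n → ℝ) → Matrix ι ι ℝ := fun s => Matrix.of (fun α β => cf β.1 (fun t => bs α.1 (mul s t)))
  have hN : ∀ s (α β : ι), N s α β = cf β.1 (fun t => bs α.1 (mul s t)) := fun _ _ _ => rfl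
  have hNmul : ∀ s s', N (mul s s') = N s * N s' := by
    intro s s'
    ext α γ
    rw [Matrix.mul_apply, hN]
    have e1 : (fun t => bs α.1 (mul (mul s s') t)) = ∑ β : ι, N s α β • (fun t => bs β.1 (mul s' t)) := by
      funext t
      have h1 := expand hw1 (hLmem s α)
      have h2 := congrFun h1 (mul s' t)
      simp only [Finset.sum_apply, Pi.smul_apply] at h2 ⊢
      rw [hassoc, h2]
      rfl
    rw [e1, cf_sum]
    refine Finset.sum_congr rfl (fun β _ => ?_)
    rw [cf_smul, hN s' β γ]
  have hNtri : ∀ s (α β : ι), wt w α.1 ≤ wt w β.1 → N s α β = if β = α then 1 else 0 := by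
    intro s α β h
    have h1 : cf β.1 ((fun t => bs α.1 (mul s t)) - bs α.1) = 0 := cf_of_mem (hL s α.1).mem h
    rw [cf_sub, cf_bs] at h1
    rw [hN]
    by_cases hb : β = α
    · subst hb
      simp only [if_true] at h1 ⊢
      linarith
    · have hb' : β.1 ≠ α.1 := fun h => hb (Subtype.ext h)
      simp only [if_neg hb, if_neg hb'] at h1 ⊢
      linarith
  have hN0 : N 0 = 1 := by
    ext α β
    rw [hN]
    simp only [h0']
    rw [show (fun t => bs α.1 t) = bs α.1 from rfl, cf_bs, Matrix.one_apply]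
    by_cases hb : β = α
    · subst hb; simp
    · have hb' : β.1 ≠ α.1 := fun h => hb (Subtype.ext h)
      have hb'' : α ≠ β := fun h => hb h.symm
      simp [hb', hb'']
  -- the special entries
  have hex1 : ∀ j, (Pi.single j 1 : Fin n → ℕ) ∈ ex w D := by
    intro j
    rw [mem_ex hw1]
    have h1 : wt w (Pi.single j 1) = w j := by
      have := wt_add_single w 0 j
      rw [zero_add] at this
      rw [this]
      simp [wt]
    rw [h1]
    have h2 : w j ≤ ∑ j, w j := Finset.single_le_sum (f := w) (fun _ _ => Nat.zero_le _)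
      (Finset.mem_univ j)
    omega
  have hex0 : (0 : Fin n → ℕ) ∈ ex w D := by
    rw [mem_ex hw1]; simp [wt, hD]
  have hbs1 : ∀ j (t : Fin n → ℝ), bs (Pi.single j 1 : Fin n → ℕ) t = t j := by
    intro j t
    unfold bs
    rw [Finset.prod_eq_single j]
    · simp [ch_one]
    · intro i _ hi
      simp [Pi.single_eq_of_ne hi, ch_zero]
    · intro h; exact absurd (Finset.mem_univ j) h
  have hcf0 : ∀ F : Fn n, cf 0 F = F 0 := by
    intro F
    unfold cf
    have : Fintype.piFinset (fun j : Fin n => Finset.range ((0 : Fin n → ℕ) j + 1)) = {0} := by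
      ext γ
      simp [funext_iff]
    rw [this, Finset.sum_singleton]
    simp only [Pi.zero_apply, Nat.sub_self, pow_zero, Nat.choose_self, Nat.cast_one, mul_one,
      Finset.prod_const_one, one_mul, Nat.cast_zero]
    rfl
  have hNspec : ∀ s j, N s ⟨Pi.single j 1, hex1 j⟩ ⟨0, hex0⟩ = s j := by
    intro s j
    rw [hN]
    simp only
    rw [hcf0]
    rw [h0, hbs1]
  -- continuity
  have hmulc : ∀ (γ : Fin n → ℝ), Continuous (fun s => mul s γ) := by
    intro γ
    refine continuous_pi (fun j => ?_)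
    simp only [hP]
    refine ((continuous_apply j).add continuous_const).add ?_
    have : (fun s : Fin n → ℝ => MvPolynomial.eval (Sum.elim s γ) (P j))
        = (fun x => MvPolynomial.eval x (P j)) ∘ (fun s => Sum.elim s γ) := rfl
    rw [this]
    refine (MvPolynomial.continuous_eval (P j)).comp ?_
    refine continuous_pi (fun i => ?_)
    rcases i with i | i
    · simpa using continuous_apply i
    · simpa using continuous_const
  have hNc : Continuous N := by
    refine continuous_matrix (fun α β => ?_)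
    simp only [hN]
    unfold cf
    refine continuous_finsetSum _ (fun γ _ => continuous_const.mul ?_)
    unfold bs
    refine continuous_finsetProd _ (fun j _ => ?_)
    exact (ch_continuous _).comp ((continuous_apply j).comp (hmulc _))
  -- integrality
  have hNint : ∀ s, IsInt s → ∀ α β : ι, ∃ k : ℤ, N s α β = k := by
    intro s hs α β
    rw [hN]
    unfold cf
    have h1 : ∀ γ : Fin n → ℕ, ∃ k : ℤ,
        (∏ j, ((-1 : ℝ) ^ (β.1 j - γ j) * ((β.1 j).choose (γ j) : ℝ))) *
          bs α.1 (mul s (fun j => ((γ j : ℕ) : ℝ))) = k := by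
      intro γ
      have hγ : IsInt (fun j => ((γ j : ℕ) : ℝ)) := fun j => ⟨γ j, by simp⟩
      have h2 := hZ s _ hs hγ
      choose k hk using h2
      have h3 : ∀ j, ∃ l : ℤ, ch (α.1 j) (mul s (fun j => ((γ j : ℕ) : ℝ)) j) = l := by
        intro j
        rw [hk j]
        exact ch_int _ _
      choose l hl using h3
      refine ⟨(∏ j, ((-1 : ℤ) ^ (β.1 j - γ j) * ((β.1 j).choose (γ j) : ℤ))) * ∏ j, l j, ?_⟩
      unfold bs
      rw [Finset.prod_congr rfl (fun j _ => hl j)]
      push_cast
      rfl
    choose k hk using h1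
    refine ⟨∑ γ ∈ Fintype.piFinset (fun j => Finset.range (β.1 j + 1)), k γ, ?_⟩
    push_cast
    exact Finset.sum_congr rfl (fun γ _ => hk γ)
  -- reindex
  obtain ⟨e, he⟩ := exists_sort (fun α : ι => wt w α.1)
  refine ⟨Fintype.card ι, fun s => (N s).submatrix e.symm e.symm, ?_, ?_, ?_, ?_, ?_, ?_, ?_⟩
  · intro s t
    change (N (mul s t)).submatrix e.symm e.symm
      = (N s).submatrix e.symm e.symm * (N t).submatrix e.symm e.symm
    rw [hNmul, Matrix.submatrix_mul_equiv]
  · change (N 0).submatrix e.symm e.symm = 1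
    rw [hN0]; exact Matrix.submatrix_one_equiv e.symm
  · intro s i j hij
    change N s (e.symm i) (e.symm j) = 0
    rw [hNtri s _ _ (he j i hij.le), if_neg]
    intro h
    exact (ne_of_lt hij) (e.symm.injective h)
  · intro s i
    change N s (e.symm i) (e.symm i) = 1
    rw [hNtri s _ _ le_rfl, if_pos rfl]
  · exact hNc.matrix_submatrix e.symm e.symm
  · intro s s' h
    funext j
    have h1 := congrFun (congrFun h (e ⟨Pi.single j 1, hex1 j⟩)) (e ⟨0, hex0⟩)
    simp only [Matrix.submatrix_apply, Equiv.symm_apply_apply] at h1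
    rw [hNspec, hNspec] at h1
    exact h1
  · intro s
    constructor
    · intro h j
      have h1 := h (e ⟨Pi.single j 1, hex1 j⟩) (e ⟨0, hex0⟩)
      simp only [Matrix.submatrix_apply, Equiv.symm_apply_apply] at h1
      rwa [hNspec] at h1
    · intro hs i j
      exact hNint s hs (e.symm i) (e.symm j)

end MPd26.PolyEmb
end
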