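import Pool.Agent.Lib.MP_d26cd8_an.HK.Flow

/-!
# Products of nil-maps: block diagonal matrices
-/

set_option autoImplicit false

open MeasureTheory ProbabilityTheory Filter Topology

namespace MPd26.HK

open MPd26.Nil

namespace ProdNilM

variable {m n : ℕ}

/-- block diagonal matrix -/
def blk (A : Mat m) (B : Mat n) : Mat (m + n) :=
  (Matrix.fromBlocks A 0 0 B).submatrix finSumFinEquiv.symm finSumFinEquiv.symm

lemma blk_11 (A : Mat m) (B : Mat n) (i j : Fin m) :
    blk A B (Fin.castAdd n i) (Fin.castAdd n j) = A i j := by simp [blk]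

lemma blk_12 (A : Mat m) (B : Mat n) (i : Fin m) (j : Fin n) :
    blk A B (Fin.castAdd n i) (Fin.natAdd m j) = 0 := by simp [blk]

lemma blk_21 (A : Mat m) (B : Mat n) (i : Fin n) (j : Fin m) :
    blk A B (Fin.natAdd m i) (Fin.castAdd n j) = 0 := by simp [blk]

lemma blk_22 (A : Mat m) (B : Mat n) (i j : Fin n) :
    blk A B (Fin.natAdd m i) (Fin.natAdd m j) = B i j := by simp [blk]

lemma blk_mul (A A' : Mat m) (B B' : Mat n) : blk A B * blk A' B' = blk (A * A') (B * B') := by
  unfold blk
  rw [Matrix.submatrix_mul_equiv, Matrix.fromBlocks_multiply]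
  simp

lemma blk_one : blk (1 : Mat m) (1 : Mat n) = 1 := by
  unfold blk
  rw [Matrix.fromBlocks_one]
  exact Matrix.submatrix_one_equiv _

lemma blk_add (A A' : Mat m) (B B' : Mat n) : blk A B + blk A' B' = blk (A + A') (B + B') := by
  change (Matrix.fromBlocks A 0 0 B + Matrix.fromBlocks A' 0 0 B').submatrix _ _ = _
  rw [Matrix.fromBlocks_add, add_zero, add_zero]
  rfl

lemma blk_smul (c : ℝ) (A : Mat m) (B : Mat n) : c • blk A B = blk (c • A) (c • B) := by
  change (c • Matrix.fromBlocks A 0 0 B).submatrix _ _ = _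
  rw [Matrix.fromBlocks_smul, smul_zero, smul_zero]
  rfl

lemma blk_zero : blk (0 : Mat m) (0 : Mat n) = 0 := by
  unfold blk
  rw [Matrix.fromBlocks_zero]
  rfl

lemma blk_sub (A A' : Mat m) (B B' : Mat n) : blk A B - blk A' B' = blk (A - A') (B - B') := by
  rw [sub_eq_add_neg, sub_eq_add_neg, sub_eq_add_neg, ← blk_add]
  congr 1
  have h := blk_smul (-1) A' B'
  simpa using h

lemma blk_pow (A : Mat m) (B : Mat n) (r : ℕ) : blk A B ^ r = blk (A ^ r) (B ^ r) := by
  induction r with
  | zero => rw [pow_zero, pow_zero, pow_zero, blk_one]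
  | succ r ih => rw [pow_succ, ih, blk_mul, pow_succ, pow_succ]

lemma blk_sum {ι : Type*} (s : Finset ι) (A : ι → Mat m) (B : ι → Mat n) :
    ∑ i ∈ s, blk (A i) (B i) = blk (∑ i ∈ s, A i) (∑ i ∈ s, B i) := by
  classical
  induction s using Finset.induction_on with
  | empty => simp [blk_zero]
  | insert a s ha ih => rw [Finset.sum_insert ha, Finset.sum_insert ha, Finset.sum_insert ha, ih, blk_add]

lemma blk_lev {k : ℕ} {A : Mat m} {B : Mat n} (hA : Lev k A) (hB : Lev k B) : Lev k (blk A B) := by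
  intro i j
  refine Fin.addCases (fun i => ?_) (fun i => ?_) i
  · refine Fin.addCases (fun j => ?_) (fun j => ?_) j
    · intro h
      rw [blk_11]
      exact hA i j (by simpa using h)
    · intro _
      rw [blk_12]
  · refine Fin.addCases (fun j => ?_) (fun j => ?_) j
    · intro _
      rw [blk_21]
    · intro h
      rw [blk_22]
      refine hB i j ?_
      simp only [Fin.val_natAdd] at h
      omega

lemma blk_continuous : Continuous (fun p : Mat m × Mat n => blk p.1 p.2) := by
  unfold blk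
  have h : Continuous (fun p : Mat m × Mat n => Matrix.fromBlocks p.1 0 0 p.2) :=
    continuous_fst.matrix_fromBlocks continuous_const continuous_const continuous_snd
  exact h.matrix_submatrix _ _

lemma blk_int {A : Mat m} {B : Mat n} (hA : IsInt A) (hB : IsInt B) : IsInt (blk A B) := by
  intro i j
  refine Fin.addCases (fun i => ?_) (fun i => ?_) i
  · refine Fin.addCases (fun j => ?_) (fun j => ?_) j
    · rw [blk_11]; exact hA i j
    · exact ⟨0, by rw [blk_12]; simp⟩
  · refine Fin.addCases (fun j => ?_) (fun j => ?_) j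
    · exact ⟨0, by rw [blk_21]; simp⟩
    · rw [blk_22]; exact hB i j

lemma lev0 (g : UT m) : Lev 0 g.mat := by
  have : g.mat = (g.mat - 1) + 1 := by abel
  rw [this]
  exact (g.su.mono (by omega)).add Lev.one

/-- block diagonal embedding -/
noncomputable def blkU (g : UT m) (h : UT n) : UT (m + n) :=
  ⟨blk g.mat h.mat, by
    have e : blk g.mat h.mat - 1 = blk (g.mat - 1) (h.mat - 1) := by
      rw [← blk_sub, blk_one]
    rw [e]
    exact blk_lev g.su h.su⟩

lemma blkU_mul (g g' : UT m) (h h' : UT n) : blkU g h * blkU g' h' = blkU (g * g') (h * h') := by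
  apply UT.ext
  exact blk_mul _ _ _ _

lemma blkU_one : blkU (1 : UT m) (1 : UT n) = 1 := by
  apply UT.ext
  exact blk_one

lemma blkU_inv (g : UT m) (h : UT n) : (blkU g h)⁻¹ = blkU g⁻¹ h⁻¹ := by
  rw [inv_eq_iff_mul_eq_one, blkU_mul, mul_inv_cancel, mul_inv_cancel, blkU_one]

lemma blkU_continuous : Continuous (fun p : UT m × UT n => blkU p.1 p.2) := by
  rw [UT.isInducing_mat.continuous_iff]
  exact blk_continuous.comp ((UT.continuous_mat.comp continuous_fst).prodMk
    (UT.continuous_mat.comp continuous_snd))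

lemma blkU_expU {A : Mat m} {B : Mat n} (hA : IsSU A) (hB : IsSU B) :
    expU (blk A B) = blkU (expU A) (expU B) := by
  apply UT.ext
  have hAB : IsSU (blk A B) := blk_lev hA hB
  rw [expU_mat hAB]
  show expM (blk A B) = blk (expU A).mat (expU B).mat
  rw [expU_mat hA, expU_mat hB]
  -- the three sums have different lengths
  have ext : ∀ {k : ℕ} {C : Mat k}, IsSU C → ∀ N, k ≤ N →
      expM C = ∑ r ∈ Finset.range N, ((r.factorial : ℝ)⁻¹) • C ^ r := by
    intro k C hC N hN
    unfold expM
    rw [← Finset.sum_range_add_sum_Ico _ hN]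
    have : ∑ r ∈ Finset.Ico k N, ((r.factorial : ℝ)⁻¹) • C ^ r = 0 := by
      refine Finset.sum_eq_zero (fun r hr => ?_)
      have hk : k ≤ r := (Finset.mem_Ico.mp hr).1
      have : C ^ r = 0 := by
        rw [← Nat.add_sub_cancel' hk, pow_add, hC.pow_eq_zero, zero_mul]
      rw [this, smul_zero]
    rw [this, add_zero]
  rw [ext hAB (m + n) le_rfl, ext hA (m + n) (Nat.le_add_right _ _),
    ext hB (m + n) (Nat.le_add_left _ _), ← blk_sum]
  refine Finset.sum_congr rfl (fun r _ => ?_)
  rw [blk_pow, blk_smul]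

/-- upper left block -/
def ul (A : Mat (m + n)) : Mat m := A.submatrix (Fin.castAdd n) (Fin.castAdd n)

/-- lower right block -/
def lr (A : Mat (m + n)) : Mat n := A.submatrix (Fin.natAdd m) (Fin.natAdd m)

lemma ul_mul {A B : Mat (m + n)} (hB : Lev 0 B) : ul (A * B) = ul A * ul B := by
  ext i j
  simp only [ul, Matrix.submatrix_apply, Matrix.mul_apply, Fin.sum_univ_add]
  have : ∑ x : Fin n, A (Fin.castAdd n i) (Fin.natAdd m x) * B (Fin.natAdd m x) (Fin.castAdd n j) = 0 := by
    refine Finset.sum_eq_zero (fun x _ => ?_)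
    rw [hB _ _ ?_, mul_zero]
    simp only [Fin.val_castAdd, Fin.val_natAdd]
    have := j.2
    omega
  rw [this, add_zero]

lemma lr_mul {A B : Mat (m + n)} (hA : Lev 0 A) : lr (A * B) = lr A * lr B := by
  ext i j
  simp only [lr, Matrix.submatrix_apply, Matrix.mul_apply, Fin.sum_univ_add]
  have : ∑ x : Fin m, A (Fin.natAdd m i) (Fin.castAdd n x) * B (Fin.castAdd n x) (Fin.natAdd m j) = 0 := by
    refine Finset.sum_eq_zero (fun x _ => ?_)
    rw [hA _ _ ?_, zero_mul]
    simp only [Fin.val_castAdd, Fin.val_natAdd]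
    have := x.2
    omega
  rw [this, zero_add]

lemma ul_one : ul (1 : Mat (m + n)) = 1 := by
  ext i j
  simp only [ul, Matrix.submatrix_apply, Matrix.one_apply]
  congr 1
  simp

lemma lr_one : lr (1 : Mat (m + n)) = 1 := by
  ext i j
  simp only [lr, Matrix.submatrix_apply, Matrix.one_apply]
  congr 1
  simp

lemma ul_su {A : Mat (m + n)} (hA : IsSU (A - 1)) : IsSU (ul A - 1) := by
  have e : ul A - 1 = ul (A - 1) := by
    rw [← ul_one (m := m) (n := n)]; rfl
  rw [e]
  intro i j h
  exact hA _ _ (by simpa using h)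

lemma lr_su {A : Mat (m + n)} (hA : IsSU (A - 1)) : IsSU (lr A - 1) := by
  have e : lr A - 1 = lr (A - 1) := by
    rw [← lr_one (m := m) (n := n)]; rfl
  rw [e]
  intro i j h
  exact hA _ _ (by simp only [Fin.val_natAdd]; omega)

/-- upper left block as a homomorphism -/
noncomputable def ulU (m n : ℕ) : UT (m + n) →* UT m where
  toFun g := ⟨ul g.mat, ul_su g.su⟩
  map_one' := UT.ext ul_one
  map_mul' g h := UT.ext (ul_mul (lev0 h))

/-- lower right block as a homomorphism -/
noncomputable def lrU (m n : ℕ) : UT (m + n) →* UT n where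
  toFun g := ⟨lr g.mat, lr_su g.su⟩
  map_one' := UT.ext lr_one
  map_mul' g h := UT.ext (lr_mul (lev0 g))

lemma ulU_continuous : Continuous (ulU m n) := by
  rw [UT.isInducing_mat.continuous_iff]
  have h : Continuous (fun A : Mat (m + n) => ul A) := continuous_id.matrix_submatrix _ _
  exact h.comp UT.continuous_mat

lemma lrU_continuous : Continuous (lrU m n) := by
  rw [UT.isInducing_mat.continuous_iff]
  have h : Continuous (fun A : Mat (m + n) => lr A) := continuous_id.matrix_submatrix _ _
  exact h.comp UT.continuous_mat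

lemma ulU_int {g : UT (m + n)} (hg : g ∈ LT (m + n)) : ulU m n g ∈ LT m := fun i j => hg _ _

lemma lrU_int {g : UT (m + n)} (hg : g ∈ LT (m + n)) : lrU m n g ∈ LT n := fun i j => hg _ _

lemma ulU_blkU (g : UT m) (h : UT n) : ulU m n (blkU g h) = g := by
  apply UT.ext
  ext i j
  exact blk_11 _ _ i j

lemma lrU_blkU (g : UT m) (h : UT n) : lrU m n (blkU g h) = h := by
  apply UT.ext
  ext i j
  exact blk_22 _ _ i j

/-- first projection of nilmanifolds -/
noncomputable def p1 (m n : ℕ) : NM (m + n) → NM m :=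
  Quotient.map' (ulU m n) (fun a b h => by
    rw [QuotientGroup.leftRel_apply] at h ⊢
    rw [← map_inv, ← map_mul]
    exact ulU_int h)

/-- second projection of nilmanifolds -/
noncomputable def p2 (m n : ℕ) : NM (m + n) → NM n :=
  Quotient.map' (lrU m n) (fun a b h => by
    rw [QuotientGroup.leftRel_apply] at h ⊢
    rw [← map_inv, ← map_mul]
    exact lrU_int h)

lemma p1_mk (g : UT (m + n)) : p1 m n (QuotientGroup.mk g) = QuotientGroup.mk (ulU m n g) := rfl
lemma p2_mk (g : UT (m + n)) : p2 m n (QuotientGroup.mk g) = QuotientGroup.mk (lrU m n g) := rfl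

lemma p1_continuous : Continuous (p1 m n) := by
  rw [(QuotientGroup.isOpenQuotientMap_mk (N := LT (m + n))).continuous_comp_iff.symm]
  exact (QuotientGroup.continuous_mk).comp ulU_continuous

lemma p2_continuous : Continuous (p2 m n) := by
  rw [(QuotientGroup.isOpenQuotientMap_mk (N := LT (m + n))).continuous_comp_iff.symm]
  exact (QuotientGroup.continuous_mk).comp lrU_continuous

/-- product of nilmanifolds -/
noncomputable def Q (m n : ℕ) (y : NM m × NM n) : NM (m + n) :=
  Quotient.map₂' (fun g h => blkU g h) (fun a b h a' b' h' => by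
    rw [QuotientGroup.leftRel_apply] at h h' ⊢
    rw [blkU_inv, blkU_mul]
    exact blk_int h h') y.1 y.2

lemma Q_mk (g : UT m) (h : UT n) : Q m n (QuotientGroup.mk g, QuotientGroup.mk h)
    = QuotientGroup.mk (blkU g h) := rfl

lemma Q_continuous : Continuous (Q m n) := by
  have h1 : IsOpenQuotientMap (Prod.map (QuotientGroup.mk : UT m → NM m)
      (QuotientGroup.mk : UT n → NM n)) :=
    QuotientGroup.isOpenQuotientMap_mk.prodMap QuotientGroup.isOpenQuotientMap_mk
  rw [h1.continuous_comp_iff.symm]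
  have : Q m n ∘ Prod.map QuotientGroup.mk QuotientGroup.mk
      = fun p : UT m × UT n => (QuotientGroup.mk (blkU p.1 p.2) : NM (m + n)) := rfl
  rw [this]
  exact QuotientGroup.continuous_mk.comp blkU_continuous

lemma p1_Q (y : NM m) (z : NM n) : p1 m n (Q m n (y, z)) = y := by
  refine QuotientGroup.induction_on y (fun g => ?_)
  refine QuotientGroup.induction_on z (fun h => ?_)
  rw [Q_mk, p1_mk, ulU_blkU]

lemma p2_Q (y : NM m) (z : NM n) : p2 m n (Q m n (y, z)) = z := by
  refine QuotientGroup.induction_on y (fun g => ?_)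
  refine QuotientGroup.induction_on z (fun h => ?_)
  rw [Q_mk, p2_mk, lrU_blkU]

lemma Q_smul (a : UT m) (b : UT n) (y : NM m) (z : NM n) :
    Q m n (a • y, b • z) = blkU a b • Q m n (y, z) := by
  refine QuotientGroup.induction_on y (fun g => ?_)
  refine QuotientGroup.induction_on z (fun h => ?_)
  show (QuotientGroup.mk (blkU (a * g) (b * h)) : NM (m + n))
    = QuotientGroup.mk (blkU a b * blkU g h)
  rw [blkU_mul]

/-- two nil-maps factor through one -/
theorem prod2 (α : Type) [MeasurableSpace α] (Fl : Flow α) (m₁ m₂ : ℕ) (π₁ : α → NM m₁)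
    (π₂ : α → NM m₂) (h₁ : Fl.NilMap m₁ π₁) (h₂ : Fl.NilMap m₂ π₂) :
    Fl.NilMap (m₁ + m₂) (fun x => Q m₁ m₂ (π₁ x, π₂ x)) := by
  obtain ⟨hm1, ξ₁, hξ1, h1⟩ := h₁
  obtain ⟨hm2, ξ₂, hξ2, h2⟩ := h₂
  refine ⟨Q_continuous.measurable.comp (hm1.prodMk hm2), blk ξ₁ ξ₂, blk_lev hξ1 hξ2, ?_⟩
  intro t
  filter_upwards [h1 t, h2 t] with x hx1 hx2
  rw [hx1, hx2, Q_smul, blk_smul, blkU_expU (hξ1.smul t) (hξ2.smul t)]

/-- finitely many nil-maps factor through one -/
theorem prodFin (α : Type) [MeasurableSpace α] (Fl : Flow α) (r : ℕ) (m : Fin r → ℕ)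
    (π : ∀ i : Fin r, α → NM (m i)) (h : ∀ i, Fl.NilMap (m i) (π i)) :
    ∃ (M : ℕ) (R : α → NM M) (q : ∀ i : Fin r, NM M → NM (m i)),
      Fl.NilMap M R ∧ ∀ i, Continuous (q i) ∧ ∀ x, q i (R x) = π i x := by
  induction r with
  | zero =>
    refine ⟨0, fun _ => QuotientGroup.mk 1, fun i => i.elim0, ⟨measurable_const, 0, Lev.zero 1, ?_⟩,
      fun i => i.elim0⟩
    intro t
    refine Filter.Eventually.of_forall (fun x => ?_)
    rw [smul_zero, expU_zero, one_smul]
  | succ r ih =>
    obtain ⟨M, R, q, hR, hq⟩ := ih (fun i => m i.castSucc) (fun i => π i.castSucc)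
      (fun i => h i.castSucc)
    refine ⟨M + m (Fin.last r), fun x => Q M (m (Fin.last r)) (R x, π (Fin.last r) x),
      Fin.lastCases (motive := fun i => NM (M + m (Fin.last r)) → NM (m i))
        (p2 M (m (Fin.last r))) (fun i => q i ∘ p1 M (m (Fin.last r))),
      prod2 α Fl M _ R _ hR (h _), ?_⟩
    intro i
    refine Fin.lastCases ?_ (fun i => ?_) i
    · rw [Fin.lastCases_last]
      exact ⟨p2_continuous, fun x => p2_Q _ _⟩
    · rw [Fin.lastCases_castSucc]
      refine ⟨(hq i).1.comp p1_continuous, fun x => ?_⟩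
      show q i (p1 M (m (Fin.last r)) (Q M (m (Fin.last r)) (R x, π (Fin.last r) x))) = _
      rw [p1_Q]
      exact (hq i).2 x

end ProdNilM

end MPd26.HK
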